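import Pool.Agent.N305.TH.F

/-!
# Energies of combs and of balanced families
-/

set_option autoImplicit false

open Filter Topology

namespace Pool.Agent.N305.TH

section fin

variable {ι : Type} {J : Type} [Fintype J]

/-- finite combinations of unit vectors -/
noncomputable def comb (a : J → ι) (c : J → ℝ) : L2 ι := ∑ j, c j • L2.e (a j)

lemma comb_apply (a : J → ι) (ha : Function.Injective a) (c : J → ℝ) (j : J) :
    comb a c (a j) = c j := by
  classical
  unfold comb
  rw [L2.sum_apply, Finset.sum_eq_single j]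
  · show c j • L2.e (a j) (a j) = c j
    rw [L2.e_self, smul_eq_mul, mul_one]
  · intro k _ hk
    show c k • L2.e (a k) (a j) = 0
    rw [L2.e_ne (fun h => hk (ha h).symm), smul_zero]
  · intro h
    exact absurd (Finset.mem_univ j) h

lemma comb_apply_ne (a : J → ι) (c : J → ℝ) (b : ι) (hb : ∀ j, a j ≠ b) :
    comb a c b = 0 := by
  classical
  unfold comb
  rw [L2.sum_apply]
  refine Finset.sum_eq_zero fun j _ => ?_
  show c j • L2.e (a j) b = 0
  rw [L2.e_ne (hb j).symm, smul_zero]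

open Classical in
lemma norm_ind_comb (a : J → ι) (ha : Function.Injective a) (c : J → ℝ) (S : Set ι) :
    ‖L2.ind S (comb a c)‖ ^ 2 = ∑ j, if a j ∈ S then c j ^ 2 else 0 := by
  rw [L2.nsq, tsum_eq_sum (s := Finset.univ.map ⟨a, ha⟩), Finset.sum_map]
  · refine Finset.sum_congr rfl fun j _ => ?_
    show L2.ind S (comb a c) (a j) ^ 2 = _
    split_ifs with h
    · rw [L2.ind_mem _ h, comb_apply a ha]
    · rw [L2.ind_notMem _ h]
      norm_num
  · intro b hb
    have : ∀ j, a j ≠ b := by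
      intro j hj
      exact hb (by rw [← hj]; exact Finset.mem_map_of_mem _ (Finset.mem_univ j))
    by_cases h : b ∈ S
    · rw [L2.ind_mem _ h, comb_apply_ne a c b this]
      norm_num
    · rw [L2.ind_notMem _ h]
      norm_num

lemma norm_comb_sq (a : J → ι) (ha : Function.Injective a) (c : J → ℝ) :
    ‖comb a c‖ ^ 2 = ∑ j, c j ^ 2 := by
  have := norm_ind_comb a ha c Set.univ
  simpa [L2.ind_univ] using this

end fin

section tree

variable {ι : Type} (r : ι → ℕ → Bool)

lemma FF_e (a : ι) : FF r (L2.e a) = 0 := by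
  funext p
  unfold FF
  show _ = (0 : ℝ)
  by_cases h : p.2 = a
  · have h1 : ∀ l, L2.ind (cyl r l p.2) (L2.e a) = L2.e a := by
      intro l
      ext b
      by_cases hb : b = a
      · rw [L2.ind_mem]
        rw [hb, ← h]
        exact mem_cyl_self r _ _
      · by_cases hb' : b ∈ cyl r l p.2
        · rw [L2.ind_mem _ hb']
        · rw [L2.ind_notMem _ hb', L2.e_ne hb]
    rw [h1, h1, L2.norm_e]
    norm_num
  · rw [L2.e_ne h, mul_zero]

/-- the vectors `(e a, 0)` -/
noncomputable def hh (a : ι) : (ZM r).Sp :=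
  ⟨(L2.e a, 0), ⟨0, by
    rw [map_zero]
    show 0 = 0 - FF r (L2.e a)
    rw [FF_e, sub_zero]⟩⟩

lemma q_hh (a : ι) : (ZM r).q (hh r a) = L2.e a := rfl

lemma kap_hh (a : ι) : (ZM r).kap (hh r a) = 0 := rfl

lemma norm_hh (a : ι) : ‖hh r a‖ ≤ 1 := by
  have h := (ZM r).repr_norm (hh r a) 0 (by
    rw [kap_hh, q_hh, map_zero, add_zero]
    exact (FF_e r a).symm)
  rw [norm_zero, zero_add, q_hh, L2.norm_e] at h
  exact h.2

variable {J : Type} [Fintype J]

/-- a finite combination of the vectors `(e a, 0)` -/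
noncomputable def hcomb (a : J → ι) (c : J → ℝ) : (ZM r).Sp := ∑ j, c j • hh r (a j)

lemma q_hcomb (a : J → ι) (c : J → ℝ) : (ZM r).q (hcomb r a c) = comb a c := by
  unfold hcomb comb
  rw [map_sum]
  refine Finset.sum_congr rfl fun j _ => ?_
  rw [map_smul, q_hh]

lemma kap_hcomb (a : J → ι) (c : J → ℝ) : (ZM r).kap (hcomb r a c) = 0 := by
  unfold hcomb
  rw [map_sum]
  refine Finset.sum_eq_zero fun j _ => ?_
  rw [map_smul, kap_hh, smul_zero]

/-- combs -/
def IsComb (α : J → ℕ → Bool) : Prop :=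
  ∃ (ξ : ℕ → Bool) (lev : J → ℕ), Function.Injective lev ∧
    ∀ j, agree (lev j) (α j) ξ ∧ α j (lev j) ≠ ξ (lev j)

/-- balanced families -/
def IsBal (d : ℕ) (β : J → ℕ → Bool) : Prop :=
  ∀ j, ∃ T : Finset ℕ, T.card = d ∧ ∀ l ∈ T,
    2 * Nat.card {i // agree (l + 1) (β i) (β j)} = Nat.card {i // agree l (β i) (β j)}

lemma lev_eq {ξ α : ℕ → Bool} {l l' : ℕ} (h : agree l α ξ ∧ α l ≠ ξ l)
    (h' : agree l' α ξ ∧ α l' ≠ ξ l') : l = l' := by
  rcases lt_trichotomy l l' with hl | hl | hl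
  · exact absurd (h'.1 l hl) h.2
  · exact hl
  · exact absurd (h.1 l' hl) h'.2

lemma IsComb.inj {a : J → ι} (h : IsComb fun j => r (a j)) : Function.Injective a := by
  obtain ⟨ξ, lev, hl, h⟩ := h
  intro i j hij
  apply hl
  have h1 : agree (lev i) (r (a i)) ξ ∧ r (a i) (lev i) ≠ ξ (lev i) := h i
  have h2 : agree (lev j) (r (a j)) ξ ∧ r (a j) (lev j) ≠ ξ (lev j) := h j
  rw [← hij] at h2
  exact lev_eq h1 h2

lemma arith_comb {n n' u : ℝ} (h0 : 0 ≤ n) (h1 : 0 ≤ n') (h2 : 0 ≤ u) (h : n ^ 2 = n' ^ 2 + u ^ 2) :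
    (1 - n' / n) ^ 2 * n' ^ 2 + (1 - u / n) ^ 2 * u ^ 2 + 2 * n' ^ 2 ≤ 2 * n ^ 2 := by
  rcases h0.eq_or_lt with h3 | h3
  · have h4 : n' ^ 2 = 0 := by
      rw [← h3] at h
      nlinarith [sq_nonneg n', sq_nonneg u]
    have h5 : u ^ 2 = 0 := by
      rw [← h3] at h
      nlinarith [sq_nonneg n', sq_nonneg u]
    rw [h4, h5, ← h3]
    norm_num
  · have h4 : n' ≤ n := by
      refine abs_le_of_sq_le_sq' ?_ h0 |>.2
      nlinarith [sq_nonneg u]
    have h5 : u ≤ n := by
      refine abs_le_of_sq_le_sq' ?_ h0 |>.2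
      nlinarith [sq_nonneg n']
    have h6 : (1 - n' / n) ^ 2 * n' ^ 2 ≤ u ^ 2 := by
      have e1 : (1 - n' / n) ^ 2 * n' ^ 2 = (n - n') ^ 2 * (n' / n) ^ 2 := by
        field_simp
      have e2 : (n' / n) ^ 2 ≤ 1 := by
        have a1 : 0 ≤ n' / n := by positivity
        have a2 : n' / n ≤ 1 := div_le_one_of_le₀ h4 h0
        nlinarith
      have e3 : (n - n') ^ 2 ≤ u ^ 2 := by nlinarith
      rw [e1]
      nlinarith [sq_nonneg (n - n')]
    have h7 : (1 - u / n) ^ 2 * u ^ 2 ≤ u ^ 2 := by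
      have a1 : 0 ≤ u / n := by positivity
      have a2 : u / n ≤ 1 := div_le_one_of_le₀ h5 h0
      have a3 : (1 - u / n) ^ 2 ≤ 1 := by nlinarith
      nlinarith [sq_nonneg u]
    linarith

lemma sum_part (x : L2 ι) (s : Finset ι) (l : ℕ) {S S' : Set ι}
    (hS : ∀ b ∈ S', cyl r l b = S) (hS' : ∀ b ∈ S', cyl r (l + 1) b = S') :
    ∑ b ∈ s, S'.indicator (fun b => FF r x (l, b) ^ 2) b ≤
      (1 - ‖L2.ind S' x‖ / ‖L2.ind S x‖) ^ 2 * ‖L2.ind S' x‖ ^ 2 := by
  refine le_trans ?_ (mul_le_mul_of_nonneg_left (L2.sum_le (L2.ind S' x) s) (sq_nonneg _))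
  rw [Finset.mul_sum]
  refine Finset.sum_le_sum fun b _ => ?_
  by_cases hb : b ∈ S'
  · rw [Set.indicator_of_mem hb, L2.ind_mem _ hb]
    unfold FF
    rw [hS b hb, hS' b hb, mul_pow]
  · rw [Set.indicator_of_notMem hb]
    positivity

lemma comb_step {a : J → ι} {ξ : ℕ → Bool} {lev : J → ℕ} (hl : Function.Injective lev)
    (h : ∀ j, agree (lev j) (r (a j)) ξ ∧ r (a j) (lev j) ≠ ξ (lev j)) (c : J → ℝ) (s : Finset ι)
    (k : ℕ) : ∀ l : ℕ,
    ∑ i ∈ Finset.range k,
      ∑ b ∈ s, {b | agree l (r b) ξ}.indicator (fun b => FF r (comb a c) (l + i, b) ^ 2) b ≤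
      2 * ‖L2.ind {b | agree l (r b) ξ} (comb a c)‖ ^ 2 := by
  classical
  have ha : Function.Injective a := IsComb.inj r ⟨ξ, lev, hl, h⟩
  induction k with
  | zero =>
    intro l
    simp only [Finset.range_zero, Finset.sum_empty]
    positivity
  | succ k ih =>
    intro l
    set x := comb a c with hx
    set S := {b : ι | agree l (r b) ξ} with hS
    set S0 := {b : ι | agree (l + 1) (r b) ξ} with hS0
    set S1 := {b : ι | agree l (r b) ξ ∧ r b l ≠ ξ l} with hS1
    have hd : Disjoint S0 S1 := by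
      rw [Set.disjoint_left]
      rintro b h1 ⟨-, h2⟩
      exact h2 (agree_succ.1 h1).2
    have hu : S0 ∪ S1 = S := by
      ext b
      simp only [hS, hS0, hS1, Set.mem_union, Set.mem_ofPred_eq, agree_succ]
      tauto
    have c0 : ∀ b ∈ S0, cyl r l b = S := by
      intro b hb
      ext a
      have hb' := (agree_succ.1 hb).1
      exact ⟨fun h => agree.trans h hb', fun h => agree.trans h hb'.symm⟩
    have c0' : ∀ b ∈ S0, cyl r (l + 1) b = S0 := by
      intro b hb
      ext a
      exact ⟨fun h => agree.trans h hb, fun h => agree.trans h (agree.symm hb)⟩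
    have c1 : ∀ b ∈ S1, cyl r l b = S := by
      intro b hb
      ext a
      have hb' := hb.1
      exact ⟨fun h => agree.trans h hb', fun h => agree.trans h hb'.symm⟩
    have c1' : ∀ b ∈ S1, cyl r (l + 1) b = S1 := by
      intro b hb
      ext a
      constructor
      · intro h
        have h2 := agree_succ.1 h
        exact ⟨agree.trans h2.1 hb.1, by rw [h2.2]; exact hb.2⟩
      · rintro ⟨h1, h2⟩
        refine agree_succ.2 ⟨agree.trans h1 hb.1.symm, ?_⟩
        have := hb.2
        revert h2 this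
        cases r a l <;> cases r b l <;> cases ξ l <;> simp
    have z1 : ∀ b ∈ S1, ∀ i, FF r x (l + 1 + i, b) = 0 := by
      intro b hb i
      by_cases hj : ∃ j, a j = b
      · obtain ⟨j, hj⟩ := hj
        have hlj : lev j = l := lev_eq (h j) (by rw [hj]; exact hb)
        have e1 : ∀ l', l + 1 ≤ l' → ‖L2.ind (cyl r l' b) x‖ ^ 2 = c j ^ 2 := by
          intro l' hl'
          rw [hx, norm_ind_comb a ha, Finset.sum_eq_single j]
          · rw [if_pos]
            rw [hj]
            exact mem_cyl_self r _ _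
          · intro i _ hij
            rw [if_neg]
            intro hi
            have h1 : a i ∈ cyl r (l + 1) b := agree.mono hi hl'
            rw [c1' b hb] at h1
            exact hij (hl ((lev_eq (h i) h1).trans hlj.symm))
          · intro h
            exact absurd (Finset.mem_univ j) h
        have e2 : ‖L2.ind (cyl r (l + 1 + i + 1) b) x‖ = ‖L2.ind (cyl r (l + 1 + i) b) x‖ := by
          have := (e1 (l + 1 + i + 1) (by omega)).trans (e1 (l + 1 + i) (by omega)).symm
          exact (sq_eq_sq₀ (norm_nonneg _) (norm_nonneg _)).1 this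
        have e3 : x b = c j := by rw [← hj, hx, comb_apply a ha]
        have e4 := e1 (l + 1 + i) (by omega)
        unfold FF
        show (1 - ‖L2.ind (cyl r (l + 1 + i + 1) b) x‖ / ‖L2.ind (cyl r (l + 1 + i) b) x‖) * x b = 0
        rw [e2, e3]
        rcases eq_or_ne (c j) 0 with h0 | h0
        · rw [h0, mul_zero]
        · rw [div_self, sub_self, zero_mul]
          intro h1
          rw [h1] at e4
          have : c j ^ 2 = 0 := by rw [← e4]; norm_num
          exact h0 (by simpa using this)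
      · push Not at hj
        unfold FF
        show _ * x b = 0
        rw [hx, comb_apply_ne a c b hj, mul_zero]
    have h1 : ∀ i, (∑ b ∈ s, S.indicator (fun b => FF r x (l + (i + 1), b) ^ 2) b) =
        ∑ b ∈ s, S0.indicator (fun b => FF r x (l + 1 + i, b) ^ 2) b := by
      intro i
      refine Finset.sum_congr rfl fun b _ => ?_
      rw [← hu, Set.indicator_union_of_disjoint hd, add_assoc l 1 i, add_comm 1 i]
      have : S1.indicator (fun b => FF r x (l + (i + 1), b) ^ 2) b = 0 := by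
        by_cases hb : b ∈ S1
        · rw [Set.indicator_of_mem hb]
          have := z1 b hb i
          rw [add_assoc l 1 i, add_comm 1 i] at this
          rw [this]
          norm_num
        · rw [Set.indicator_of_notMem hb]
      show S0.indicator (fun b => FF r x (l + (i + 1), b) ^ 2) b +
        S1.indicator (fun b => FF r x (l + (i + 1), b) ^ 2) b = _
      rw [this, add_zero]
    rw [Finset.sum_range_succ', Finset.sum_congr rfl fun i _ => h1 i, add_zero]
    have h2 := ih (l + 1)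
    have h3 : ∑ b ∈ s, S.indicator (fun b => FF r x (l, b) ^ 2) b =
        ∑ b ∈ s, S0.indicator (fun b => FF r x (l, b) ^ 2) b +
        ∑ b ∈ s, S1.indicator (fun b => FF r x (l, b) ^ 2) b := by
      rw [← Finset.sum_add_distrib]
      refine Finset.sum_congr rfl fun b _ => ?_
      rw [← hu, Set.indicator_union_of_disjoint hd]
    rw [h3]
    have h4 := sum_part r x s l c0 c0'
    have h5 := sum_part r x s l c1 c1'
    have h6 := arith_comb (norm_nonneg (L2.ind S x)) (norm_nonneg (L2.ind S0 x))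
      (norm_nonneg (L2.ind S1 x)) (L2.ind_sq_add x hd hu)
    linarith

lemma norm_hcomb_le {a : J → ι} (h : IsComb fun j => r (a j)) (c : J → ℝ) :
    ‖hcomb r a c‖ ≤ 3 * Real.sqrt (∑ j, c j ^ 2) := by
  classical
  have ha := h.inj
  obtain ⟨ξ, lev, hl, h⟩ := h
  have key : ∀ s : Finset (ℕ × ι), ∑ p ∈ s, (-FF r (comb a c) p) ^ 2 ≤ (2 * ‖comb a c‖) ^ 2 := by
    intro s
    obtain ⟨k, hk⟩ : ∃ k, ∀ p ∈ s, p.1 < k :=
      ⟨s.sup Prod.fst + 1, fun p hp => Nat.lt_succ_of_le (Finset.le_sup (f := Prod.fst) hp)⟩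
    have h1 := comb_step r hl h c (s.image Prod.snd) k 0
    have h0 : {b : ι | agree 0 (r b) ξ} = Set.univ := by
      ext b
      simp [agree_zero]
    rw [h0] at h1
    simp only [Set.indicator_univ, L2.ind_univ, zero_add] at h1
    have h2 : ∑ p ∈ s, (-FF r (comb a c) p) ^ 2 ≤ 2 * ‖comb a c‖ ^ 2 := by
      refine le_trans ?_ h1
      rw [← Finset.sum_product' (Finset.range k) (s.image Prod.snd)
        (fun i b => (FF r (comb a c) (i, b)) ^ 2)]
      simp only [neg_sq]
      refine Finset.sum_le_sum_of_subset_of_nonneg ?_ fun _ _ _ => sq_nonneg _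
      intro p hp
      rw [Finset.mem_product]
      exact ⟨Finset.mem_range.2 (hk p hp), Finset.mem_image_of_mem _ hp⟩
    have := sq_nonneg ‖comb a c‖
    nlinarith
  obtain ⟨y, hy, hy'⟩ := L2.exists_of _ _ (by positivity) key
  have h1 := ((ZM r).repr_norm (hcomb r a c) y (by
    rw [kap_hcomb, q_hcomb]
    funext p
    show 0 = FF r (comb a c) p + y p
    rw [hy]
    ring)).2
  rw [q_hcomb] at h1
  have h2 : ‖comb a c‖ = Real.sqrt (∑ j, c j ^ 2) := by
    rw [← norm_comb_sq a ha c, Real.sqrt_sq (norm_nonneg _)]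
  rw [← h2]
  linarith

lemma le_norm_hcomb {b : J → ι} (hb : Function.Injective b) {d : ℕ}
    (h : IsBal d fun j => r (b j)) (ε : J → ℝ) (hε : ∀ j, ε j ^ 2 = 1) :
    Real.sqrt (d * Fintype.card J) ≤ 12 * ‖hcomb r b ε‖ := by
  classical
  obtain ⟨y, h1, h2, -⟩ := (ZM r).repr (hcomb r b ε)
  rw [kap_hcomb, q_hcomb] at h1
  have hy : ∀ p, y p ^ 2 = FF r (comb b ε) p ^ 2 := by
    intro p
    have h3 : 0 = FF r (comb b ε) p + y p := congrFun h1 p
    have : y p = -FF r (comb b ε) p := by linarith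
    rw [this, neg_sq]
  choose T hT hT' using h
  have key : ∀ j, ∀ l ∈ T j, 1 / 16 ≤ FF r (comb b ε) (l, b j) ^ 2 := by
    intro j l hl
    have e1 : ∀ l, ‖L2.ind (cyl r l (b j)) (comb b ε)‖ ^ 2 =
        Nat.card {i // agree l (r (b i)) (r (b j))} := by
      intro l
      rw [norm_ind_comb b hb]
      simp only [hε]
      rw [Nat.card_eq_fintype_card, Fintype.card_subtype, Finset.card_filter]
      push_cast
      rfl
    have e2 := hT' j l hl
    have e3 : 2 * ‖L2.ind (cyl r (l + 1) (b j)) (comb b ε)‖ ^ 2 =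
        ‖L2.ind (cyl r l (b j)) (comb b ε)‖ ^ 2 := by
      rw [e1, e1, ← e2]
      push_cast
      ring
    have e4 : 0 < ‖L2.ind (cyl r l (b j)) (comb b ε)‖ := by
      have : 0 < ‖L2.ind (cyl r l (b j)) (comb b ε)‖ ^ 2 := by
        rw [e1]
        have : Nonempty {i // agree l (r (b i)) (r (b j))} := ⟨⟨j, agree.refl _ _⟩⟩
        exact_mod_cast Nat.card_pos
      exact (sq_pos_iff.1 this).lt_of_le' (norm_nonneg _) 
    unfold FF
    show 1 / 16 ≤ ((1 - ‖L2.ind (cyl r (l + 1) (b j)) (comb b ε)‖ /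
      ‖L2.ind (cyl r l (b j)) (comb b ε)‖) * comb b ε (b j)) ^ 2
    rw [mul_pow, comb_apply b hb, hε, mul_one]
    set u := ‖L2.ind (cyl r (l + 1) (b j)) (comb b ε)‖ with hu
    set v := ‖L2.ind (cyl r l (b j)) (comb b ε)‖ with hv
    have hu0 : 0 ≤ u := norm_nonneg _
    have e5 : u / v ≤ 3 / 4 := by
      rw [div_le_iff₀ e4]
      refine abs_le_of_sq_le_sq' ?_ (by positivity) |>.2
      nlinarith [sq_nonneg v]
    nlinarith
  have h3 : (d * Fintype.card J : ℝ) / 16 ≤ ‖y‖ ^ 2 := by
    set s : Finset (ℕ × ι) := (Finset.univ.sigma T).image fun p => (p.2, b p.1) with hs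
    refine le_trans ?_ (L2.sum_le y s)
    rw [hs, Finset.sum_image, Finset.sum_sigma]
    · simp only [hy]
      have e1 : ∀ j ∈ (Finset.univ : Finset J), (d : ℝ) / 16 ≤
          ∑ l ∈ T j, FF r (comb b ε) (l, b j) ^ 2 := by
        intro j _
        calc (d : ℝ) / 16 = ∑ _l ∈ T j, (1 : ℝ) / 16 := by
              rw [Finset.sum_const, hT, nsmul_eq_mul]; ring
          _ ≤ _ := Finset.sum_le_sum (key j)
      refine le_trans (le_of_eq ?_) (Finset.sum_le_sum e1)
      rw [Finset.sum_const, nsmul_eq_mul, Finset.card_univ]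
      ring
    · rintro ⟨j, l⟩ _ ⟨j', l'⟩ _ h
      simp only [Prod.mk.injEq] at h
      obtain ⟨rfl, h'⟩ := h
      have := hb h'
      subst this
      rfl
  have h4 : Real.sqrt (d * Fintype.card J) ≤ 4 * ‖y‖ := by
    rw [Real.sqrt_le_left (by positivity)]
    nlinarith
  have := norm_nonneg ((ZM r).q (hcomb r b ε))
  linarith

end tree

end Pool.Agent.N305.TH
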