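import Pool.Agent.N305.TH.Twist

/-!
# The tree map on `ℓ²(ι)`
-/

set_option autoImplicit false

open Filter Topology

namespace Pool.Agent.N305.TH

/-- real `ℓ²` -/
abbrev L2 (α : Type) : Type := ↥(lp (fun _ : α => ℝ) 2)

section L2

variable {α : Type}

lemma L2.summable (x : L2 α) : Summable fun a => x a ^ 2 := by
  have h := (lp.memℓp x).summable (by norm_num)
  simpa using h

lemma L2.nsq (x : L2 α) : ‖x‖ ^ 2 = ∑' a, x a ^ 2 := by
  have h := lp.norm_rpow_eq_tsum (p := 2) (by norm_num) x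
  simpa using h

lemma L2.sum_le (x : L2 α) (s : Finset α) : ∑ a ∈ s, x a ^ 2 ≤ ‖x‖ ^ 2 := by
  rw [L2.nsq]
  exact (L2.summable x).sum_le_tsum s (fun _ _ => sq_nonneg _)

lemma L2.abs_le (x : L2 α) (a : α) : |x a| ≤ ‖x‖ := by
  have := L2.sum_le x {a}
  rw [Finset.sum_singleton] at this
  exact abs_le_of_sq_le_sq this (norm_nonneg _)

lemma L2.exists_of (f : α → ℝ) (C : ℝ) (hC : 0 ≤ C) (h : ∀ s : Finset α, ∑ a ∈ s, f a ^ 2 ≤ C ^ 2) :
    ∃ y : L2 α, (∀ a, y a = f a) ∧ ‖y‖ ≤ C := by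
  have hm : Memℓp f 2 := by
    apply memℓp_gen' (C := C ^ 2)
    intro s
    simpa using h s
  refine ⟨⟨f, hm⟩, fun a => rfl, ?_⟩
  refine lp.norm_le_of_forall_sum_le (by norm_num) hC fun s => ?_
  simpa using h s

/-- restriction to a subset -/
noncomputable def L2.ind (S : Set α) : L2 α →ₗ[ℝ] L2 α where
  toFun x := ⟨S.indicator x, by
    apply memℓp_gen' (C := ‖x‖ ^ 2)
    intro s
    refine le_trans ?_ (L2.sum_le x s)
    refine Finset.sum_le_sum fun a _ => ?_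
    by_cases ha : a ∈ S
    · simp [ha]
    · simp [ha, sq_nonneg]⟩
  map_add' x y := by
    ext a
    show S.indicator (x + y : α → ℝ) a = S.indicator x a + S.indicator y a
    rw [Set.indicator_add']
    rfl
  map_smul' c x := by
    ext a
    exact Set.indicator_const_smul_apply S c (fun a => x a) a

lemma L2.ind_apply (S : Set α) (x : L2 α) (a : α) : L2.ind S x a = S.indicator x a := rfl

lemma L2.ind_mem {S : Set α} (x : L2 α) {a : α} (ha : a ∈ S) : L2.ind S x a = x a := by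
  rw [L2.ind_apply, Set.indicator_of_mem ha]

lemma L2.ind_notMem {S : Set α} (x : L2 α) {a : α} (ha : a ∉ S) : L2.ind S x a = 0 := by
  rw [L2.ind_apply, Set.indicator_of_notMem ha]

lemma L2.ind_sq_add {S S0 S1 : Set α} (x : L2 α) (h0 : Disjoint S0 S1) (h1 : S0 ∪ S1 = S) :
    ‖L2.ind S x‖ ^ 2 = ‖L2.ind S0 x‖ ^ 2 + ‖L2.ind S1 x‖ ^ 2 := by
  rw [L2.nsq, L2.nsq, L2.nsq, ← (L2.summable (L2.ind S0 x)).tsum_add (L2.summable (L2.ind S1 x))]
  congr 1
  funext a
  subst h1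
  by_cases ha : a ∈ S0
  · have hb : a ∉ S1 := Set.disjoint_left.1 h0 ha
    rw [L2.ind_mem x ha, L2.ind_notMem x hb, L2.ind_mem x (Or.inl ha)]
    ring
  · by_cases hb : a ∈ S1
    · rw [L2.ind_notMem x ha, L2.ind_mem x hb, L2.ind_mem x (Or.inr hb)]
      ring
    · rw [L2.ind_notMem x ha, L2.ind_notMem x hb, L2.ind_notMem x (by simp [ha, hb])]
      ring

lemma L2.sum_apply {J : Type} (s : Finset J) (x : J → L2 α) (a : α) :
    (∑ j ∈ s, x j : L2 α) a = ∑ j ∈ s, x j a := by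
  rw [lp.coeFn_sum, Finset.sum_apply]

lemma L2.ind_univ (x : L2 α) : L2.ind Set.univ x = x := by
  ext a
  rw [L2.ind_mem x (Set.mem_univ a)]

lemma L2.ind_mono {S S' : Set α} (x : L2 α) (h : S ⊆ S') : ‖L2.ind S x‖ ≤ ‖L2.ind S' x‖ := by
  have := L2.ind_sq_add (S := S') (S0 := S) (S1 := S' \ S) x Set.disjoint_sdiff_right
    (Set.union_sdiff_cancel h)
  refine abs_le_of_sq_le_sq' ?_ (norm_nonneg _) |>.2
  have := sq_nonneg ‖L2.ind (S' \ S) x‖
  linarith

lemma L2.ind_le (S : Set α) (x : L2 α) : ‖L2.ind S x‖ ≤ ‖x‖ := by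
  have := L2.ind_mono x (Set.subset_univ S)
  rwa [L2.ind_univ] at this

/-- the unit vectors -/
noncomputable def L2.e (a : α) : L2 α := by
  classical exact lp.single 2 a (1 : ℝ)

lemma L2.e_self (a : α) : L2.e a a = 1 := by
  classical
  simp [L2.e]

lemma L2.e_ne {a b : α} (h : b ≠ a) : L2.e a b = 0 := by
  classical
  simp [L2.e, h]

lemma L2.norm_e (a : α) : ‖L2.e a‖ = 1 := by
  classical
  simp [L2.e, lp.norm_single]

end L2

/-- agreement below `l` -/
def agree (l : ℕ) (ξ η : ℕ → Bool) : Prop := ∀ k < l, ξ k = η k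

lemma agree.symm {l : ℕ} {ξ η : ℕ → Bool} (h : agree l ξ η) : agree l η ξ := fun k hk => (h k hk).symm

lemma agree.trans {l : ℕ} {ξ η ζ : ℕ → Bool} (h : agree l ξ η) (h' : agree l η ζ) : agree l ξ ζ :=
  fun k hk => (h k hk).trans (h' k hk)

lemma agree.refl (l : ℕ) (ξ : ℕ → Bool) : agree l ξ ξ := fun _ _ => rfl

lemma agree.mono {l m : ℕ} {ξ η : ℕ → Bool} (h : agree m ξ η) (hl : l ≤ m) : agree l ξ η :=
  fun k hk => h k (hk.trans_le hl)

lemma agree_zero (ξ η : ℕ → Bool) : agree 0 ξ η := fun _ hk => absurd hk (Nat.not_lt_zero _)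

lemma agree_succ {l : ℕ} {ξ η : ℕ → Bool} : agree (l + 1) ξ η ↔ agree l ξ η ∧ ξ l = η l := by
  constructor
  · intro h
    exact ⟨h.mono (Nat.le_succ l), h l (Nat.lt_succ_self l)⟩
  · rintro ⟨h, h'⟩ k hk
    rcases Nat.lt_succ_iff_lt_or_eq.1 hk with h1 | h1
    · exact h k h1
    · rw [h1, h']

section tree

variable {ι : Type} (r : ι → ℕ → Bool)

/-- cylinders -/
def cyl (l : ℕ) (b : ι) : Set ι := {a | agree l (r a) (r b)}

lemma mem_cyl_self (l : ℕ) (b : ι) : b ∈ cyl r l b := agree.refl _ _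

lemma cyl_anti (l : ℕ) (b : ι) : cyl r (l + 1) b ⊆ cyl r l b := fun _ h => (agree_succ.1 h).1

/-- the tree map -/
noncomputable def FF (x : L2 ι) (p : ℕ × ι) : ℝ :=
  (1 - ‖L2.ind (cyl r (p.1 + 1) p.2) x‖ / ‖L2.ind (cyl r p.1 p.2) x‖) * x p.2

lemma FF_smul (c : ℝ) (x : L2 ι) (p : ℕ × ι) : FF r (c • x) p = c * FF r x p := by
  unfold FF
  rcases eq_or_ne c 0 with rfl | hc
  · simp
  · rw [map_smul, map_smul, norm_smul, norm_smul, mul_div_mul_left _ _ (norm_ne_zero_iff.2 hc)]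
    simp only [lp.coeFn_smul, Pi.smul_apply, smul_eq_mul]
    ring

/-- a node of level `l` -/
def Node (l : ℕ) (S : Set ι) : Prop := ∀ b ∈ S, cyl r l b = S

lemma Node.child {l : ℕ} {S : Set ι} (h : Node r l S) (c : Bool) :
    Node r (l + 1) (S ∩ {b | r b l = c}) := by
  rintro b ⟨hb, hb'⟩
  ext a
  have h1 := h b hb
  constructor
  · intro ha
    have h2 := agree_succ.1 ha
    refine ⟨?_, h2.2.trans hb'⟩
    rw [← h1]
    exact h2.1
  · rintro ⟨ha, ha'⟩
    refine agree_succ.2 ⟨?_, ha'.trans hb'.symm⟩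
    rw [← h1] at ha
    exact ha

lemma node_univ : Node r 0 (Set.univ : Set ι) := by
  intro b _
  ext a
  simp only [Set.mem_univ, iff_true]
  exact agree_zero _ _

variable {J : Type} [Fintype J] (x : J → L2 ι)

lemma step_one (hx : ∑ j, x j = 0) (s : Finset ι) {l : ℕ} {S S' : Set ι}
    (hS : ∀ b ∈ S', cyl r l b = S) (hS' : ∀ b ∈ S', cyl r (l + 1) b = S') (hSS : S' ⊆ S) :
    (∑ b ∈ s, S'.indicator (fun b => (∑ j, FF r (x j) (l, b)) ^ 2) b) + (∑ j, ‖L2.ind S' (x j)‖) ^ 2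
      ≤ (∑ j, ‖L2.ind S (x j)‖) *
        ∑ j, (‖L2.ind S' (x j)‖ / ‖L2.ind S (x j)‖) ^ 2 * ‖L2.ind S (x j)‖ := by
  set n : J → ℝ := fun j => ‖L2.ind S (x j)‖ with hn
  set n' : J → ℝ := fun j => ‖L2.ind S' (x j)‖ with hn'
  have hn0 : ∀ j, 0 ≤ n j := fun j => norm_nonneg _
  have hn'0 : ∀ j, 0 ≤ n' j := fun j => norm_nonneg _
  have hnn : ∀ j, n' j ≤ n j := fun j => L2.ind_mono _ hSS
  set t : J → ℝ := fun j => n' j / n j with ht
  have htn : ∀ j, t j * n j = n' j := by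
    intro j
    rcases eq_or_ne (n j) 0 with h | h
    · rw [h, mul_zero]
      have := hnn j
      have := hn'0 j
      linarith
    · exact div_mul_cancel₀ _ h
  have ht0 : ∀ j, 0 ≤ t j := fun j => div_nonneg (hn'0 j) (hn0 j)
  have ht1 : ∀ j, t j ≤ 1 := fun j => div_le_one_of_le₀ (hnn j) (hn0 j)
  set W : ℝ := ∑ j, n j with hW
  set W' : ℝ := ∑ j, n' j with hW'
  have hW0 : 0 ≤ W := Finset.sum_nonneg fun j _ => hn0 j
  have hW'0 : 0 ≤ W' := Finset.sum_nonneg fun j _ => hn'0 j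
  have hWW : W' ≤ W := Finset.sum_le_sum fun j _ => hnn j
  set κ : ℝ := W' / W with hκ
  have hκW : κ * W = W' := by
    rcases eq_or_ne W 0 with h | h
    · rw [h, mul_zero]
      linarith
    · exact div_mul_cancel₀ _ h
  set v : L2 ι := ∑ j, (κ - t j) • x j with hv
  have hx' : ∀ b, ∑ j, x j b = 0 := by
    intro b
    have := congrArg (fun f : L2 ι => f b) hx
    simp only [L2.sum_apply] at this
    exact this
  have h1 : ∀ b ∈ S', ∑ j, FF r (x j) (l, b) = v b := by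
    intro b hb
    have e1 : ∀ j, FF r (x j) (l, b) = (1 - t j) * x j b := by
      intro j
      unfold FF
      rw [hS b hb, hS' b hb]
    have e2 : v b = ∑ j, (κ - t j) * x j b := by
      rw [hv, L2.sum_apply]
      rfl
    rw [e2, Finset.sum_congr rfl fun j _ => e1 j]
    simp only [sub_mul, Finset.sum_sub_distrib, one_mul, ← Finset.mul_sum, hx' b, mul_zero]
  have h2 : (∑ b ∈ s, S'.indicator (fun b => (∑ j, FF r (x j) (l, b)) ^ 2) b) ≤
      ‖L2.ind S' v‖ ^ 2 := by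
    refine le_trans (Finset.sum_le_sum fun b _ => ?_) (L2.sum_le (L2.ind S' v) s)
    by_cases hb : b ∈ S'
    · rw [Set.indicator_of_mem hb, L2.ind_mem _ hb, h1 b hb]
    · rw [Set.indicator_of_notMem hb]
      positivity
  have h3 : ‖L2.ind S' v‖ ≤ ∑ j, |κ - t j| * n' j := by
    rw [hv, map_sum]
    refine (norm_sum_le _ _).trans (Finset.sum_le_sum fun j _ => ?_)
    rw [map_smul, norm_smul, Real.norm_eq_abs]
  have h4 : (∑ j, |κ - t j| * n' j) ^ 2 ≤
      (∑ j, (κ - t j) ^ 2 * n j) * ∑ j, t j ^ 2 * n j := by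
    apply Finset.sum_sq_le_sum_mul_sum_of_sq_le_mul
    · intro j _
      exact mul_nonneg (sq_nonneg _) (hn0 j)
    · intro j _
      exact mul_nonneg (sq_nonneg _) (hn0 j)
    · intro j _
      rw [mul_pow, sq_abs, ← htn j]
      apply le_of_eq
      ring
  have h5 : ∑ j, (κ - t j) ^ 2 * n j = (∑ j, t j ^ 2 * n j) - κ * W' := by
    have e1 : ∀ j, (κ - t j) ^ 2 * n j = κ ^ 2 * n j - 2 * κ * n' j + t j ^ 2 * n j := by
      intro j
      rw [← htn j]
      ring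
    rw [Finset.sum_congr rfl fun j _ => e1 j, Finset.sum_add_distrib, Finset.sum_sub_distrib,
      ← Finset.mul_sum, ← Finset.mul_sum, ← hW, ← hW']
    have : κ ^ 2 * W = κ * W' := by rw [sq, mul_assoc, hκW]
    rw [this]
    ring
  have h6 : ∑ j, t j ^ 2 * n j ≤ W := by
    refine Finset.sum_le_sum fun j _ => ?_
    have : t j ^ 2 ≤ 1 := by
      have := ht0 j
      have := ht1 j
      nlinarith
    have := hn0 j
    nlinarith
  have h7 : 0 ≤ ∑ j, (κ - t j) ^ 2 * n j :=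
    Finset.sum_nonneg fun j _ => mul_nonneg (sq_nonneg _) (hn0 j)
  have h8 : ‖L2.ind S' v‖ ^ 2 ≤ (∑ j, |κ - t j| * n' j) ^ 2 :=
    pow_le_pow_left₀ (norm_nonneg _) h3 2
  have h9 : (∑ j, (κ - t j) ^ 2 * n j) * ∑ j, t j ^ 2 * n j ≤
      (∑ j, (κ - t j) ^ 2 * n j) * W := mul_le_mul_of_nonneg_left h6 h7
  have h10 : (∑ j, (κ - t j) ^ 2 * n j) * W = W * (∑ j, t j ^ 2 * n j) - W' ^ 2 := by
    rw [h5]
    have : κ * W' * W = W' ^ 2 := by rw [mul_right_comm, hκW, sq]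
    rw [sub_mul, this]
    ring
  linarith

lemma step_two (hx : ∑ j, x j = 0) (s : Finset ι) {l : ℕ} {S : Set ι} (hS : Node r l S) :
    (∑ b ∈ s, S.indicator (fun b => (∑ j, FF r (x j) (l, b)) ^ 2) b) +
      ((∑ j, ‖L2.ind (S ∩ {b | r b l = false}) (x j)‖) ^ 2 +
        (∑ j, ‖L2.ind (S ∩ {b | r b l = true}) (x j)‖) ^ 2)
      ≤ (∑ j, ‖L2.ind S (x j)‖) ^ 2 := by
  set S0 := S ∩ {b | r b l = false} with hS0
  set S1 := S ∩ {b | r b l = true} with hS1
  have hd : Disjoint S0 S1 := by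
    rw [Set.disjoint_left]
    rintro b ⟨-, h⟩ ⟨-, h'⟩
    simp only [Set.mem_ofPred_eq] at h h'
    rw [h] at h'
    exact absurd h' (by simp)
  have hu : S0 ∪ S1 = S := by
    ext b
    simp only [hS0, hS1, Set.mem_union, Set.mem_inter_iff, Set.mem_ofPred_eq]
    cases r b l <;> simp
  have a0 := step_one r x hx s (S := S) (S' := S0) (fun b hb => hS b hb.1)
    (hS.child r false) Set.inter_subset_left
  have a1 := step_one r x hx s (S := S) (S' := S1) (fun b hb => hS b hb.1)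
    (hS.child r true) Set.inter_subset_left
  have h1 : ∀ b, S.indicator (fun b => (∑ j, FF r (x j) (l, b)) ^ 2) b =
      S0.indicator (fun b => (∑ j, FF r (x j) (l, b)) ^ 2) b +
        S1.indicator (fun b => (∑ j, FF r (x j) (l, b)) ^ 2) b := by
    intro b
    rw [← hu, Set.indicator_union_of_disjoint hd]
  have h2 : ∀ j, (‖L2.ind S0 (x j)‖ / ‖L2.ind S (x j)‖) ^ 2 * ‖L2.ind S (x j)‖ +
      (‖L2.ind S1 (x j)‖ / ‖L2.ind S (x j)‖) ^ 2 * ‖L2.ind S (x j)‖ = ‖L2.ind S (x j)‖ := by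
    intro j
    rcases eq_or_ne ‖L2.ind S (x j)‖ 0 with h | h
    · rw [h]
      ring
    · rw [div_pow, div_pow, ← add_mul, ← add_div, ← L2.ind_sq_add (x j) hd hu]
      field_simp
  have h3 : (∑ j, (‖L2.ind S0 (x j)‖ / ‖L2.ind S (x j)‖) ^ 2 * ‖L2.ind S (x j)‖) +
      (∑ j, (‖L2.ind S1 (x j)‖ / ‖L2.ind S (x j)‖) ^ 2 * ‖L2.ind S (x j)‖) =
      ∑ j, ‖L2.ind S (x j)‖ := by
    rw [← Finset.sum_add_distrib]
    exact Finset.sum_congr rfl fun j _ => h2 j
  rw [Finset.sum_congr rfl fun b _ => h1 b, Finset.sum_add_distrib]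
  have h4 : (∑ j, ‖L2.ind S (x j)‖) ^ 2 = (∑ j, ‖L2.ind S (x j)‖) *
      (∑ j, (‖L2.ind S0 (x j)‖ / ‖L2.ind S (x j)‖) ^ 2 * ‖L2.ind S (x j)‖) +
      (∑ j, ‖L2.ind S (x j)‖) *
      (∑ j, (‖L2.ind S1 (x j)‖ / ‖L2.ind S (x j)‖) ^ 2 * ‖L2.ind S (x j)‖) := by
    rw [← mul_add, h3, sq]
  rw [h4]
  linarith

lemma step_all (hx : ∑ j, x j = 0) (s : Finset ι) (k : ℕ) : ∀ (l : ℕ) (S : Set ι), Node r l S →
    ∑ i ∈ Finset.range k, (∑ b ∈ s, S.indicator (fun b => (∑ j, FF r (x j) (l + i, b)) ^ 2) b)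
      ≤ (∑ j, ‖L2.ind S (x j)‖) ^ 2 := by
  induction k with
  | zero =>
    intro l S _
    simp only [Finset.range_zero, Finset.sum_empty]
    positivity
  | succ k ih =>
    intro l S hS
    have h0 := step_two r x hx s hS
    have h1 := ih (l + 1) _ (hS.child r false)
    have h2 := ih (l + 1) _ (hS.child r true)
    set S0 := S ∩ {b | r b l = false} with hS0
    set S1 := S ∩ {b | r b l = true} with hS1
    have hd : Disjoint S0 S1 := by
      rw [Set.disjoint_left]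
      rintro b ⟨-, h⟩ ⟨-, h'⟩
      simp only [Set.mem_ofPred_eq] at h h'
      rw [h] at h'
      exact absurd h' (by simp)
    have hu : S0 ∪ S1 = S := by
      ext b
      simp only [hS0, hS1, Set.mem_union, Set.mem_inter_iff, Set.mem_ofPred_eq]
      cases r b l <;> simp
    have h3 : ∀ i, (∑ b ∈ s, S.indicator (fun b => (∑ j, FF r (x j) (l + (i + 1), b)) ^ 2) b) =
        (∑ b ∈ s, S0.indicator (fun b => (∑ j, FF r (x j) (l + 1 + i, b)) ^ 2) b) +
        (∑ b ∈ s, S1.indicator (fun b => (∑ j, FF r (x j) (l + 1 + i, b)) ^ 2) b) := by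
      intro i
      rw [← Finset.sum_add_distrib]
      refine Finset.sum_congr rfl fun b _ => ?_
      rw [← hu, Set.indicator_union_of_disjoint hd, add_assoc l 1 i, add_comm 1 i]
    rw [Finset.sum_range_succ', Finset.sum_congr rfl fun i _ => h3 i, Finset.sum_add_distrib,
      add_zero]
    linarith

lemma zlin (hx : ∑ j, x j = 0) (s : Finset (ℕ × ι)) :
    ∑ p ∈ s, (∑ j, FF r (x j) p) ^ 2 ≤ (∑ j, ‖x j‖) ^ 2 := by
  classical
  obtain ⟨k, hk⟩ : ∃ k, ∀ p ∈ s, p.1 < k :=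
    ⟨s.sup Prod.fst + 1, fun p hp => Nat.lt_succ_of_le (Finset.le_sup (f := Prod.fst) hp)⟩
  have h1 := step_all r x hx (s.image Prod.snd) k 0 Set.univ (node_univ r)
  simp only [Set.indicator_univ, L2.ind_univ, zero_add] at h1
  refine le_trans ?_ h1
  rw [← Finset.sum_product' (Finset.range k) (s.image Prod.snd)
    (fun i b => (∑ j, FF r (x j) (i, b)) ^ 2)]
  refine Finset.sum_le_sum_of_subset_of_nonneg ?_ fun _ _ _ => sq_nonneg _
  intro p hp
  rw [Finset.mem_product]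
  exact ⟨Finset.mem_range.2 (hk p hp), Finset.mem_image_of_mem _ hp⟩

/-- the tree map as a `ZMap` -/
noncomputable def ZM : ZMap (L2 ι) (L2 (ℕ × ι)) (ℕ × ι → ℝ) where
  i := { toFun := fun y => y
         map_add' := fun _ _ => rfl
         map_smul' := fun _ _ => rfl }
  inj := fun _ _ h => lp.ext h
  F := FF r
  smul c x := funext fun p => FF_smul r c x p
  z L hL := by
    have h1 : ∑ j : Fin L.length, L[j.1] = 0 := by
      rw [Fin.sum_univ_getElem, hL]
    have h2 := L2.exists_of (fun p => ∑ j : Fin L.length, FF r (L[j.1]) p)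
      (∑ j : Fin L.length, ‖L[j.1]‖) (Finset.sum_nonneg fun _ _ => norm_nonneg _)
      (fun s => zlin r _ h1 s)
    obtain ⟨y, hy, hy'⟩ := h2
    refine ⟨y, ?_, ?_⟩
    · funext p
      show y p = _
      rw [hy, Fin.sum_univ_fun_getElem L fun x => FF r x p]
      clear hy hy' h1 hL
      induction L with
      | nil => simp
      | cons a L ih => rw [List.map_cons, List.sum_cons, List.map_cons, List.sum_cons, ih]; rfl
    · rwa [Fin.sum_univ_fun_getElem L fun x => ‖x‖] at hy'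

end tree

end Pool.Agent.N305.TH
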