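import Pool.Agent.N305.TH.Main

/-!
# The twisted Hilbert space
-/

set_option autoImplicit false

open Filter Topology

namespace Pool.Agent.N305.TH

namespace ZMap

variable {H Y A : Type} [NormedAddCommGroup H] [NormedSpace ℝ H] [NormedAddCommGroup Y]
  [NormedSpace ℝ Y] [AddCommGroup A] [Module ℝ A] (Z : ZMap H Y A)

/-- the kernel of the quotient map -/
noncomputable def K : Submodule ℝ Z.Sp := LinearMap.ker (Z.q : Z.Sp →ₗ[ℝ] H)

lemma mem_K (z : Z.Sp) : z ∈ Z.K ↔ Z.q z = 0 := LinearMap.mem_ker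

lemma isClosed_K : IsClosed (Z.K : Set Z.Sp) := by
  have h : (Z.K : Set Z.Sp) = Z.q ⁻¹' {0} := by
    ext z
    exact Z.mem_K z
  rw [h]
  exact isClosed_singleton.preimage Z.q.continuous

lemma ker_eq (z : Z.Sp) (hz : z ∈ Z.K) : ∃ y, Z.jj y = z := by
  obtain ⟨y, hy, -⟩ := Z.decomp z
  refine ⟨y, ?_⟩
  rw [(Z.mem_K z).1 hz] at hy
  have e2 : Z.ss 0 = 0 := by
    have := Z.ss_norm 0
    rw [norm_zero] at this
    exact norm_le_zero_iff.1 this
  rw [e2, zero_add] at hy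
  exact hy.symm

/-- `Y` as the kernel -/
noncomputable def eK0 : Y ≃ₗ[ℝ] Z.K :=
  LinearEquiv.ofBijective (Z.jj.codRestrict Z.K fun y => (Z.mem_K _).2 (Z.q_jj y)) (by
    constructor
    · intro y w h
      have h1 : Z.jj y = Z.jj w := congrArg Subtype.val h
      have h2 : Z.i y = Z.i w := by rw [← Z.kap_jj, ← Z.kap_jj, h1]
      exact Z.inj h2
    · rintro ⟨z, hz⟩
      obtain ⟨y, hy⟩ := Z.ker_eq z hz
      exact ⟨y, Subtype.ext hy⟩)

lemma eK0_coe (y : Y) : (Z.eK0 y : Z.Sp) = Z.jj y := rfl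

/-- `Y` is isomorphic to the kernel -/
noncomputable def eK : Y ≃L[ℝ] Z.K :=
  Z.eK0.toContinuousLinearEquivOfBounds 1 3 (fun y => by
      rw [one_mul]
      exact Z.jj_norm y) (fun z => by
      have h := Z.le_jj_norm (Z.eK0.symm z)
      have h2 : Z.jj (Z.eK0.symm z) = z := by
        rw [← eK0_coe, LinearEquiv.apply_symm_apply]
      rw [h2] at h
      exact h)

/-- the quotient -/
noncomputable def eQ0 : (Z.Sp ⧸ Z.K) ≃ₗ[ℝ] H :=
  (Z.q : Z.Sp →ₗ[ℝ] H).quotKerEquivOfSurjective fun x => ⟨Z.ss x, Z.q_ss x⟩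

lemma eQ0_mk (z : Z.Sp) : Z.eQ0 (Submodule.Quotient.mk z) = Z.q z := rfl

/-- the quotient is isomorphic to `H` -/
noncomputable def eQ : (Z.Sp ⧸ Z.K) ≃L[ℝ] H :=
  Z.eQ0.toContinuousLinearEquivOfBounds 3 1 (fun x => by
      refine le_of_forall_pos_le_add fun ε hε => ?_
      obtain ⟨z, hz, hz'⟩ := Submodule.Quotient.norm_mk_lt x (show (0 : ℝ) < ε / 3 by positivity)
      rw [← hz, eQ0_mk]
      have := Z.q_norm z
      rw [hz]
      linarith) (fun x => by
      have h : Z.eQ0.symm x = Submodule.Quotient.mk (Z.ss x) := by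
        rw [LinearEquiv.symm_apply_eq, eQ0_mk, q_ss]
      rw [h, one_mul]
      exact (Submodule.Quotient.norm_mk_le _ _).trans (Z.ss_norm x))

end ZMap

theorem main : ∃ (X : Type) (_ : NormedAddCommGroup X) (_ : NormedSpace ℝ X) (_ : CompleteSpace X)
      (Y : Submodule ℝ X),
      IsClosed (Y : Set X) ∧
      ¬ FiniteDimensional ℝ X ∧
      (∃ (H : Type) (_ : NormedAddCommGroup H) (_ : InnerProductSpace ℝ H) (_ : CompleteSpace H),
        Nonempty (Y ≃L[ℝ] H)) ∧
      (∃ (H' : Type) (_ : NormedAddCommGroup H') (_ : InnerProductSpace ℝ H') (_ : CompleteSpace H'),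
        Nonempty ((X ⧸ Y) ≃L[ℝ] H')) ∧
      ¬ ∃ J : X →L[ℝ] X, J.comp J = -(ContinuousLinearMap.id ℝ X) := by
  obtain ⟨r, hr, hD⟩ := exists_rigid
  have hJ : ¬ ∃ J : (ZM r).Sp →L[ℝ] (ZM r).Sp,
      J.comp J = -(ContinuousLinearMap.id ℝ (ZM r).Sp) := by
    rintro ⟨J, hJ⟩
    refine no_J hr hD J fun z => ?_
    have := congrArg (fun S : (ZM r).Sp →L[ℝ] (ZM r).Sp => S z) hJ
    exact this
  refine ⟨(ZM r).Sp, inferInstance, inferInstance, inferInstance, (ZM r).K, (ZM r).isClosed_K,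
    ?_, ⟨L2 (ℕ × II), inferInstance, inferInstance, inferInstance, ⟨(ZM r).eK.symm⟩⟩,
    ⟨L2 II, inferInstance, inferInstance, inferInstance, ⟨(ZM r).eQ⟩⟩, hJ⟩
  -- infinite dimensional
  intro hfin
  have h1 : LinearIndependent ℝ (fun a : II => hh r a) := by
    rw [linearIndependent_iff']
    intro s g hg a ha
    have h2 := congrArg (fun z => (ZM r).q z) hg
    simp only [map_sum, map_smul, map_zero, q_hh] at h2
    have h3 : (∑ i ∈ s, g i • L2.e i : L2 II) a = 0 := by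
      rw [h2]
      rfl
    rw [L2.sum_apply, Finset.sum_eq_single a] at h3
    · have h4 : g a • L2.e a a = 0 := h3
      rwa [L2.e_self, smul_eq_mul, mul_one] at h4
    · intro b _ hb
      show g b • L2.e b a = 0
      rw [L2.e_ne hb.symm, smul_zero]
    · intro h
      exact absurd ha h
  have h2 : Finite II := h1.finite
  have h3 := Cardinal.mk_lt_aleph0_iff.2 h2
  rw [mk_II] at h3
  exact absurd Cardinal.aleph0_lt_continuum (not_lt.2 h3.le)

end Pool.Agent.N305.TH
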