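import Pool.Agent.N305.TH.Proj

/-!
# The operator estimates
-/

set_option autoImplicit false

open Filter Topology

namespace Pool.Agent.N305.TH

namespace ZMap

variable {H Y A : Type} [NormedAddCommGroup H] [NormedSpace ℝ H] [NormedAddCommGroup Y]
  [NormedSpace ℝ Y] [AddCommGroup A] [Module ℝ A] (Z : ZMap H Y A)

/-- the embedding of `Y` -/
def jj : Y →ₗ[ℝ] Z.Sp where
  toFun y := ⟨(0, Z.i y), ⟨y, by rw [F_zero, sub_zero]⟩⟩
  map_add' y w := by
    apply Subtype.ext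
    refine Prod.ext ?_ ?_
    · exact (add_zero (0 : H)).symm
    · exact map_add Z.i y w
  map_smul' c y := by
    apply Subtype.ext
    refine Prod.ext ?_ ?_
    · exact (smul_zero c).symm
    · exact map_smul Z.i c y

lemma q_jj (y : Y) : Z.q (Z.jj y) = 0 := rfl

lemma kap_jj (y : Y) : Z.kap (Z.jj y) = Z.i y := rfl

lemma jj_norm (y : Y) : ‖Z.jj y‖ ≤ ‖y‖ := by
  have h := (Z.repr_norm (Z.jj y) y (by rw [kap_jj, q_jj, F_zero, zero_add])).2
  rwa [q_jj, norm_zero, add_zero] at h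

lemma le_jj_norm (y : Y) : ‖y‖ ≤ 3 * ‖Z.jj y‖ := by
  have h := (Z.repr_norm (Z.jj y) y (by rw [kap_jj, q_jj, F_zero, zero_add])).1
  rwa [q_jj, norm_zero, add_zero] at h

/-- the section -/
def ss (x : H) : Z.Sp := ⟨(x, Z.F x), ⟨0, by rw [map_zero, sub_self]⟩⟩

lemma q_ss (x : H) : Z.q (Z.ss x) = x := rfl

lemma kap_ss (x : H) : Z.kap (Z.ss x) = Z.F x := rfl

lemma ss_norm (x : H) : ‖Z.ss x‖ ≤ ‖x‖ := by
  have h := (Z.repr_norm (Z.ss x) 0 (by rw [kap_ss, q_ss, map_zero, add_zero])).2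
  rwa [q_ss, norm_zero, zero_add] at h

lemma decomp (z : Z.Sp) : ∃ y, z = Z.ss (Z.q z) + Z.jj y ∧ ‖y‖ ≤ 3 * ‖z‖ := by
  obtain ⟨y, h1, h2, -⟩ := Z.repr z
  refine ⟨y, Z.ext' _ _ ?_ ?_, ?_⟩
  · rw [map_add, q_ss, q_jj, add_zero]
  · rw [map_add, kap_ss, kap_jj, h1]
  · have := norm_nonneg (Z.q z)
    linarith

lemma q_norm (z : Z.Sp) : ‖Z.q z‖ ≤ 3 * ‖z‖ := by
  obtain ⟨y, h1, h2, -⟩ := Z.repr z
  have := norm_nonneg y
  linarith

end ZMap

section steps

variable {ι : Type} (r : ι → ℕ → Bool) (T : (ZM r).Sp →L[ℝ] (ZM r).Sp)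

/-- the matrix of the operator induced on the quotient -/
noncomputable def vv (a b : ι) : ℝ := (ZM r).q (T (hh r a)) b

lemma Thh_norm (a : ι) : ‖T (hh r a)‖ ≤ ‖T‖ :=
  (T.le_opNorm _).trans (mul_le_of_le_one_right (norm_nonneg _) (norm_hh r a))

lemma vv_le (a b : ι) : |vv r T a b| ≤ 3 * ‖T‖ := by
  refine (L2.abs_le _ b).trans (((ZM r).q_norm _).trans ?_)
  have := Thh_norm r T a
  linarith

lemma vv_row (a : ι) {δ : ℝ} (hδ : 0 < δ) : {b | δ ≤ |vv r T a b|}.Finite := by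
  have h := L2.summable ((ZM r).q (T (hh r a)))
  have h1 := h.tendsto_cofinite_zero
  have h2 : ∀ᶠ b in cofinite, ((ZM r).q (T (hh r a))) b ^ 2 < δ ^ 2 :=
    h1.eventually_lt_const (by positivity)
  refine Set.Finite.subset h2 fun b hb => ?_
  have hb' : δ ≤ |vv r T a b| := hb
  show ¬ (vv r T a b ^ 2 < δ ^ 2)
  rw [not_lt, ← sq_abs (vv r T a b)]
  exact pow_le_pow_left₀ hδ.le hb' 2

variable {J : Type} [Fintype J]

lemma step_col [Nonempty J] (b : ι) {δ : ℝ} (a : J → ι) (ha : IsComb fun j => r (a j))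
    (h : ∀ j, δ ≤ |vv r T (a j) b|) : δ * Real.sqrt (Fintype.card J) ≤ 9 * ‖T‖ := by
  obtain ⟨ε, hε, hε'⟩ : ∃ ε : J → ℝ, (∀ j, ε j ^ 2 = 1) ∧ ∀ j, ε j * vv r T (a j) b =
      |vv r T (a j) b| := by
    have : ∀ j, ∃ e : ℝ, e ^ 2 = 1 ∧ e * vv r T (a j) b = |vv r T (a j) b| := by
      intro j
      rcases le_total 0 (vv r T (a j) b) with h | h
      · exact ⟨1, by norm_num, by rw [abs_of_nonneg h, one_mul]⟩
      · exact ⟨-1, by norm_num, by rw [abs_of_nonpos h]; ring⟩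
    choose e h1 h2 using this
    exact ⟨e, h1, h2⟩
  have hN : 0 < (Fintype.card J : ℝ) := by exact_mod_cast Fintype.card_pos
  have h1 : (ZM r).q (T (hcomb r a ε)) b = ∑ j, |vv r T (a j) b| := by
    unfold hcomb
    rw [map_sum, map_sum, L2.sum_apply]
    refine Finset.sum_congr rfl fun j _ => ?_
    rw [← hε' j, map_smul, map_smul]
    rfl
  have h2 : |(ZM r).q (T (hcomb r a ε)) b| ≤ 3 * (‖T‖ * (3 * Real.sqrt (Fintype.card J))) := by
    refine (L2.abs_le _ b).trans (((ZM r).q_norm _).trans ?_)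
    have h3 := T.le_opNorm (hcomb r a ε)
    have h4 := norm_hcomb_le r ha ε
    simp only [hε, Finset.sum_const, Finset.card_univ, nsmul_eq_mul, mul_one] at h4
    have h5 := mul_le_mul_of_nonneg_left h4 (norm_nonneg T)
    linarith
  have h3 : δ * Fintype.card J ≤ ∑ j, |vv r T (a j) b| := by
    refine le_trans (le_of_eq ?_) (Finset.sum_le_sum fun j _ => h j)
    rw [Finset.sum_const, Finset.card_univ, nsmul_eq_mul, mul_comm]
  rw [h1] at h2
  have h4 := (h3.trans (le_abs_self _)).trans h2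
  have h5 : (Fintype.card J : ℝ) = Real.sqrt (Fintype.card J) * Real.sqrt (Fintype.card J) :=
    (Real.mul_self_sqrt hN.le).symm
  have h6 : 0 < Real.sqrt (Fintype.card J) := Real.sqrt_pos.2 hN
  have h7 : δ * Real.sqrt (Fintype.card J) * Real.sqrt (Fintype.card J) ≤
      9 * ‖T‖ * Real.sqrt (Fintype.card J) := by
    calc _ = δ * (Fintype.card J : ℝ) := by rw [mul_assoc, ← h5]
      _ ≤ _ := h4
      _ = _ := by ring
  exact le_of_mul_le_mul_right h7 h6

lemma L2.norm_sq_supp {α : Type} (w : L2 α) (b : J → α) (hb : Function.Injective b)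
    (h : ∀ a, (∀ j, b j ≠ a) → w a = 0) : ‖w‖ ^ 2 = ∑ j, w (b j) ^ 2 := by
  rw [L2.nsq, tsum_eq_sum (s := Finset.univ.map ⟨b, hb⟩), Finset.sum_map]
  · rfl
  · intro a ha
    rw [h a]
    · norm_num
    · intro j hj
      exact ha (by rw [← hj]; exact Finset.mem_map_of_mem _ (Finset.mem_univ j))

lemma step_two_op [Nonempty J] (a b : J → ι) (ha : IsComb fun j => r (a j))
    (hb : Function.Injective b) {d : ℕ} (hbal : IsBal d fun j => r (b j)) {ε0 : ℝ} (hε0 : 0 < ε0)
    (h1 : ∀ j, ε0 ≤ |vv r T (a j) (b j)|)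
    (h2 : ∀ i j, i ≠ j → |vv r T (a i) (b j)| ≤ 1 / Fintype.card J) :
    ε0 * Real.sqrt d ≤ 12 * (81 * ‖T‖ + 1) := by
  classical
  set N : ℝ := (Fintype.card J : ℝ) with hN
  have hN0 : 0 < N := by rw [hN]; exact_mod_cast Fintype.card_pos
  set S : Set ι := Set.range b with hS
  set ρ : J → ℝ := fun j => vv r T (a j) (b j) with hρ
  have hρ0 : ∀ j, ρ j ≠ 0 := by
    intro j h
    have := h1 j
    have h3 : vv r T (a j) (b j) = 0 := h
    rw [h3, abs_zero] at this
    linarith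
  set z : J → (ZM r).Sp := fun j => RR r S (T (hh r (a j))) - ρ j • hh r (b j) with hz
  have hzn : ∀ j, ‖z j‖ ≤ 15 * ‖T‖ := by
    intro j
    have e1 := RR_norm r S (T (hh r (a j)))
    have e2 := Thh_norm r T (a j)
    have e3 : ‖ρ j • hh r (b j)‖ ≤ 3 * ‖T‖ := by
      rw [norm_smul, Real.norm_eq_abs]
      exact (mul_le_of_le_one_right (abs_nonneg _) (norm_hh r _)).trans (vv_le r T _ _)
    refine (norm_sub_le _ _).trans ?_
    linarith
  have hw : ∀ j, ‖(ZM r).q (z j)‖ ^ 2 ≤ 1 / N := by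
    intro j
    have e0 : ∀ c, (ZM r).q (z j) c =
        L2.ind S ((ZM r).q (T (hh r (a j)))) c - ρ j * L2.e (b j) c := by
      intro c
      rw [hz]
      show (ZM r).q (RR r S (T (hh r (a j))) - ρ j • hh r (b j)) c = _
      rw [map_sub, map_smul, q_RR, q_hh]
      rfl
    rw [L2.norm_sq_supp _ b hb]
    · have e1 : ∀ i, (ZM r).q (z j) (b i) ^ 2 ≤ (1 / N) ^ 2 := by
        intro i
        rw [e0, L2.ind_mem _ (Set.mem_range_self i)]
        by_cases hij : i = j
        · rw [hij, L2.e_self, mul_one]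
          show (vv r T (a j) (b j) - vv r T (a j) (b j)) ^ 2 ≤ _
          rw [sub_self, zero_pow (by norm_num)]
          positivity
        · rw [L2.e_ne (fun h => hij (hb h)), mul_zero, sub_zero]
          show vv r T (a j) (b i) ^ 2 ≤ _
          rw [← sq_abs]
          exact pow_le_pow_left₀ (abs_nonneg _) (h2 j i (Ne.symm hij)) 2
      refine (Finset.sum_le_sum fun i _ => e1 i).trans (le_of_eq ?_)
      rw [Finset.sum_const, Finset.card_univ, nsmul_eq_mul, ← hN]
      field_simp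
    · intro c hc
      have hc' : c ∉ S := by
        rintro ⟨i, hi⟩
        exact hc i hi
      rw [e0, L2.ind_notMem _ hc', L2.e_ne (hc j).symm, mul_zero, sub_zero]
  have hw' : ∀ j, ‖(ZM r).q (z j)‖ ≤ 1 / Real.sqrt N := by
    intro j
    refine abs_le_of_sq_le_sq' ?_ (by positivity) |>.2
    rw [div_pow, Real.sq_sqrt hN0.le, one_pow]
    exact hw j
  choose y hy hy' using fun j => (ZM r).decomp (z j)
  set κ : J → ℝ := fun j => ε0 / ρ j with hκ
  have hκ1 : ∀ j, |κ j| ≤ 1 := by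
    intro j
    rw [hκ]
    show |ε0 / ρ j| ≤ 1
    rw [abs_div, abs_of_pos hε0]
    exact div_le_one_of_le₀ (h1 j) (abs_nonneg _)
  obtain ⟨ε, hε, hs⟩ := exists_signs Finset.univ (fun j => κ j • y j) (fun _ => (0 : L2 (ℕ × ι)))
  have hε2 : ∀ j, ε j ^ 2 = 1 := by
    intro j
    rcases hε j with h | h <;> rw [h] <;> norm_num
  have hεa : ∀ j, |ε j| = 1 := by
    intro j
    rcases hε j with h | h <;> rw [h] <;> norm_num
  have hyn : ‖∑ j, ε j • κ j • y j‖ ≤ 45 * ‖T‖ * Real.sqrt N := by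
    refine abs_le_of_sq_le_sq' ?_ (by positivity) |>.2
    have e1 : ∀ j ∈ (Finset.univ : Finset J), ‖κ j • y j‖ ^ 2 + ‖(0 : L2 (ℕ × ι))‖ ^ 2 ≤
        (45 * ‖T‖) ^ 2 := by
      intro j _
      rw [norm_zero, zero_pow (by norm_num), add_zero]
      refine pow_le_pow_left₀ (norm_nonneg _) ?_ 2
      rw [norm_smul, Real.norm_eq_abs]
      have e2 := hy' j
      have e3 := hzn j
      have e4 := mul_le_of_le_one_left (norm_nonneg (y j)) (hκ1 j)
      linarith
    have e5 := Finset.sum_le_sum e1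
    rw [Finset.sum_const, Finset.card_univ, nsmul_eq_mul, ← hN] at e5
    rw [mul_pow, Real.sq_sqrt hN0.le]
    have e6 := sq_nonneg ‖∑ j, ε j • (0 : L2 (ℕ × ι))‖
    linarith
  have hid : ε0 • hcomb r b ε = RR r S (T (hcomb r a fun j => ε j * κ j)) -
      ((∑ j, (ε j * κ j) • (ZM r).ss ((ZM r).q (z j))) + (ZM r).jj (∑ j, ε j • κ j • y j)) := by
    have e1 : (ZM r).jj (∑ j, ε j • κ j • y j) = ∑ j, (ε j * κ j) • (ZM r).jj (y j) := by
      rw [map_sum]
      refine Finset.sum_congr rfl fun j _ => ?_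
      rw [map_smul, map_smul, smul_smul]
    have e2 : RR r S (T (hcomb r a fun j => ε j * κ j)) =
        ∑ j, (ε j * κ j) • RR r S (T (hh r (a j))) := by
      unfold hcomb
      rw [map_sum, map_sum]
      refine Finset.sum_congr rfl fun j _ => ?_
      rw [map_smul, map_smul]
    rw [e1, ← Finset.sum_add_distrib, e2, ← Finset.sum_sub_distrib]
    unfold hcomb
    rw [Finset.smul_sum]
    refine Finset.sum_congr rfl fun j _ => ?_
    rw [← smul_add, ← hy j, ← smul_sub]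
    have e3 : RR r S (T (hh r (a j))) - z j = ρ j • hh r (b j) := by
      rw [hz]
      show RR r S (T (hh r (a j))) - (RR r S (T (hh r (a j))) - ρ j • hh r (b j)) = _
      abel
    rw [e3, smul_smul, smul_smul]
    congr 1
    have e4 : κ j * ρ j = ε0 := by
      rw [hκ]
      exact div_mul_cancel₀ _ (hρ0 j)
    rw [mul_assoc, e4, mul_comm]
  have hn1 : ‖RR r S (T (hcomb r a fun j => ε j * κ j))‖ ≤ 36 * ‖T‖ * Real.sqrt N := by
    have e1 := RR_norm r S (T (hcomb r a fun j => ε j * κ j))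
    have e2 := T.le_opNorm (hcomb r a fun j => ε j * κ j)
    have e3 := norm_hcomb_le r ha fun j => ε j * κ j
    have e4 : Real.sqrt (∑ j, (ε j * κ j) ^ 2) ≤ Real.sqrt N := by
      apply Real.sqrt_le_sqrt
      have : ∀ j ∈ (Finset.univ : Finset J), (ε j * κ j) ^ 2 ≤ 1 := by
        intro j _
        rw [mul_pow, hε2, one_mul, ← sq_abs]
        have := hκ1 j
        have := abs_nonneg (κ j)
        nlinarith
      refine (Finset.sum_le_sum this).trans (le_of_eq ?_)
      rw [Finset.sum_const, Finset.card_univ, nsmul_eq_mul, mul_one]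
    have e5 := mul_le_mul_of_nonneg_left (e3.trans (mul_le_mul_of_nonneg_left e4 (by norm_num)))
      (norm_nonneg T)
    linarith
  have hn2 : ‖∑ j, (ε j * κ j) • (ZM r).ss ((ZM r).q (z j))‖ ≤ Real.sqrt N := by
    refine (norm_sum_le _ _).trans ?_
    have e1 : ∀ j ∈ (Finset.univ : Finset J), ‖(ε j * κ j) • (ZM r).ss ((ZM r).q (z j))‖ ≤
        1 / Real.sqrt N := by
      intro j _
      rw [norm_smul, Real.norm_eq_abs, abs_mul, hεa, one_mul]
      refine (mul_le_of_le_one_left (norm_nonneg _) (hκ1 j)).trans ?_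
      exact ((ZM r).ss_norm _).trans (hw' j)
    refine (Finset.sum_le_sum e1).trans (le_of_eq ?_)
    rw [Finset.sum_const, Finset.card_univ, nsmul_eq_mul, ← hN, mul_one_div]
    rw [div_eq_iff (by positivity), Real.mul_self_sqrt hN0.le]
  have hn3 := ((ZM r).jj_norm (∑ j, ε j • κ j • y j)).trans hyn
  have hn4 : ε0 * ‖hcomb r b ε‖ ≤ (81 * ‖T‖ + 1) * Real.sqrt N := by
    have e1 : ‖ε0 • hcomb r b ε‖ = ε0 * ‖hcomb r b ε‖ := by
      rw [norm_smul, Real.norm_eq_abs, abs_of_pos hε0]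
    rw [← e1, hid]
    refine (norm_sub_le _ _).trans ((add_le_add_right (norm_add_le _ _) _).trans ?_)
    linarith
  have hn5 := le_norm_hcomb r hb hbal ε hε2
  rw [Real.sqrt_mul (by positivity)] at hn5
  have hn6 : ε0 * Real.sqrt d * Real.sqrt N ≤ 12 * (81 * ‖T‖ + 1) * Real.sqrt N := by
    have e1 := mul_le_mul_of_nonneg_left hn5 hε0.le
    rw [hN]
    rw [hN] at hn4
    linarith
  exact le_of_mul_le_mul_right hn6 (Real.sqrt_pos.2 hN0)

end steps

end Pool.Agent.N305.TH
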