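import Pool.Agent.N305.TH.Rigid
import Pool.Agent.N305.TH.Step

/-!
# No complex structure
-/

set_option autoImplicit false

open Filter Topology

namespace Pool.Agent.N305.TH

lemma comb_of_infinite {ι : Type} {r : ι → ℕ → Bool} (hr : Function.Injective r) (E : Set ι)
    (hE : E.Infinite) (J : Type) [Fintype J] :
    ∃ a : J → ι, (∀ j, a j ∈ E) ∧ IsComb fun j => r (a j) := by
  classical
  have h0 : ((cofinite : Filter ι) ⊓ 𝓟 E).NeBot := by
    rw [Filter.inf_principal_neBot_iff]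
    intro U hU
    by_contra h
    rw [Set.not_nonempty_iff_eq_empty] at h
    have hU' : (Uᶜ).Finite := hU
    apply hE
    refine hU'.subset ?_
    intro x hx hxU
    have : x ∈ U ∩ E := ⟨hxU, hx⟩
    rw [h] at this
    exact this
  set U : Ultrafilter ι := Ultrafilter.of ((cofinite : Filter ι) ⊓ 𝓟 E) with hU
  have hUle : (U : Filter ι) ≤ (cofinite : Filter ι) ⊓ 𝓟 E := Ultrafilter.of_le _
  obtain ⟨ξ, hξ⟩ := exists_lim U r
  have hUE : ∀ᶠ a in (U : Filter ι), a ∈ E :=
    hUle (Filter.mem_inf_of_right (Filter.mem_principal_self E))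
  have hUne : ∀ᶠ a in (U : Filter ι), r a ≠ ξ := by
    refine hUle (Filter.mem_inf_of_left ?_)
    have e1 : {a : ι | r a = ξ}.Finite := by
      refine Set.Subsingleton.finite ?_
      intro a ha b hb
      exact hr (ha.trans hb.symm)
    exact e1.compl_mem_cofinite
  have hlev : ∀ a : ι, r a ≠ ξ → ∃ l, agree l (r a) ξ ∧ r a l ≠ ξ l := fun a ha => exists_lev ha
  choose! lev hlev using hlev
  obtain ⟨p, hp1, hp2⟩ := sel (J := J) (Ω := ι) (fun _ => (U : Filter ι)) (fun _ => inferInstance)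
    (fun _ a => a ∈ E ∧ r a ≠ ξ) (fun a b => lev a ≠ lev b) (fun _ => hUE.and hUne) (by
      rintro i j a ⟨h1, h2⟩
      filter_upwards [hξ (lev a + 1), hUne] with b h3 h4
      have e2 : lev a ≠ lev b := by
        intro e
        exact (hlev b h4).2 (h3 _ (by rw [e]; exact Nat.lt_succ_self _))
      exact ⟨e2, e2.symm⟩)
  refine ⟨p, fun j => (hp1 j).1, ξ, fun j => lev (p j), ?_, fun j => hlev _ (hp1 j).2⟩
  intro i j hij
  by_contra hne
  exact hp2 i j hne hij

lemma mat_vv {ι : Type} {r : ι → ℕ → Bool} (hr : Function.Injective r)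
    (T : (ZM r).Sp →L[ℝ] (ZM r).Sp) : Mat r (vv r T) := by
  refine ⟨fun b δ hδ => ?_, fun a δ hδ => vv_row r T a hδ, fun ε hε => ?_⟩
  · by_contra hinf
    obtain ⟨N, hN⟩ := exists_nat_gt ((9 * ‖T‖ / δ) ^ 2)
    obtain ⟨a, ha1, ha2⟩ := comb_of_infinite hr _ hinf (Fin (N + 1))
    have h1 := step_col r T b a ha2 ha1
    have h2 : Real.sqrt (Fintype.card (Fin (N + 1))) ≤ 9 * ‖T‖ / δ := by
      rw [le_div_iff₀ hδ, mul_comm]
      exact h1
    rw [Real.sqrt_le_left (by positivity), Fintype.card_fin] at h2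
    push_cast at h2
    linarith
  · obtain ⟨d, hd⟩ := exists_nat_gt ((12 * (81 * ‖T‖ + 1) / ε) ^ 2)
    refine ⟨d, fun J _ _ a b h1 h2 h3 h4 h5 => ?_⟩
    have h6 := step_two_op r T a b h1 h2 h3 hε h4 h5
    have h7 : Real.sqrt d ≤ 12 * (81 * ‖T‖ + 1) / ε := by
      rw [le_div_iff₀ hε, mul_comm]
      exact h6
    rw [Real.sqrt_le_left (by positivity)] at h7
    linarith

lemma no_J {r : II → ℕ → Bool} (hr : Function.Injective r)
    (hD : ∀ D : Code, ∃ G : Set II,
      ¬(Gᶜ).Countable ∧ ∀ k a b, a ≠ b → a ∉ G → RD D k (r a) (r b) →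
        {η | RD D k (r a) η}.Countable → {ξ | RD D k ξ (r b)}.Countable → False)
    (T : (ZM r).Sp →L[ℝ] (ZM r).Sp) (hT : ∀ z, T (T z) = -z) : False := by
  classical
  set M := ‖T‖ with hM
  have hM0 : 0 ≤ M := norm_nonneg _
  set E : Set II := {a | ∀ b, b ≠ a → vv r T a b = 0} with hE
  have hEc : ¬E.Countable := rigid_mat hr hD (mat_vv hr T)
  set lam : II → ℝ := fun a => vv r T a a with hlam
  have h1 : ∀ a ∈ E, ∃ y : L2 (ℕ × II), T (hh r a) = lam a • hh r a + (ZM r).jj y ∧
      ‖y‖ ≤ 12 * M := by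
    intro a ha
    obtain ⟨y, hy, hy'⟩ := (ZM r).decomp (T (hh r a) - lam a • hh r a)
    have e1 : (ZM r).q (T (hh r a) - lam a • hh r a) = 0 := by
      rw [map_sub, map_smul, q_hh]
      ext b
      show vv r T a b - lam a * L2.e a b = 0
      by_cases hb : b = a
      · rw [hb, L2.e_self, mul_one, sub_self]
      · rw [ha b hb, L2.e_ne hb, mul_zero, sub_zero]
    have e2 : (ZM r).ss 0 = 0 := by
      have := (ZM r).ss_norm 0
      rw [norm_zero] at this
      exact norm_le_zero_iff.1 this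
    rw [e1, e2, zero_add] at hy
    refine ⟨y, ?_, hy'.trans ?_⟩
    · rw [← hy]
      abel
    · have e3 := norm_sub_le (T (hh r a)) (lam a • hh r a)
      have e4 := Thh_norm r T a
      have e5 : ‖lam a • hh r a‖ ≤ 3 * M := by
        rw [norm_smul, Real.norm_eq_abs]
        exact (mul_le_of_le_one_right (abs_nonneg _) (norm_hh r _)).trans (vv_le r T _ _)
      linarith
  choose! y hy1 hy2 using h1
  have h2 : ∀ a ∈ E, hh r a = -((1 / (1 + lam a ^ 2) * lam a) • (ZM r).jj (y a)) -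
      T ((1 / (1 + lam a ^ 2)) • (ZM r).jj (y a)) := by
    intro a ha
    have e1 := hT (hh r a)
    rw [hy1 a ha, map_add, map_smul, hy1 a ha, smul_add, smul_smul] at e1
    have e2 : T ((ZM r).jj (y a)) = -((1 + lam a ^ 2) • hh r a) - lam a • (ZM r).jj (y a) := by
      have e3 : T ((ZM r).jj (y a)) = -hh r a - ((lam a * lam a) • hh r a +
          lam a • (ZM r).jj (y a)) := by
        rw [← e1]
        abel
      rw [e3, add_smul, one_smul, sq]
      abel
    have e4 : (1 + lam a ^ 2) ≠ 0 := by positivity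
    rw [map_smul, e2, smul_sub, smul_neg, smul_smul, smul_smul, one_div_mul_cancel e4, one_smul]
    abel
  -- a balanced family
  obtain ⟨d, hd⟩ := exists_nat_gt ((288 * M * (1 + M)) ^ 2)
  have hEc' : ¬(r '' E).Countable := by
    intro h
    exact hEc (Set.countable_of_injective_of_countable_image hr.injOn h)
  obtain ⟨s, hs1, hs2, hs3⟩ := exists_bal d _ hEc'
  obtain ⟨m, hm⟩ := hs3.approx
  have hcard : Fintype.card s = 2 ^ d := by rw [Fintype.card_coe, hs2]
  have hne : Nonempty s := by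
    rw [← Fintype.card_pos_iff, hcard]
    positivity
  choose b hb1 hb2 using fun j : s => hs1 j.1 j.2
  have hb : Function.Injective b := by
    intro i j hij
    apply Subtype.ext
    rw [← hb2 i, ← hb2 j, hij]
  have hbal : IsBal d fun j => r (b j) := by
    refine hm m le_rfl _ fun j => ?_
    rw [hb2 j]
    exact agree.refl _ _
  set N : ℝ := (Fintype.card s : ℝ) with hN
  have hN0 : 0 < N := by rw [hN]; exact_mod_cast Fintype.card_pos
  obtain ⟨ε, hε, hεs⟩ := exists_signs Finset.univ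
    (fun j => (1 / (1 + lam (b j) ^ 2) * lam (b j)) • y (b j))
    (fun j => (1 / (1 + lam (b j) ^ 2)) • y (b j))
  have hε2 : ∀ j, ε j ^ 2 = 1 := by
    intro j
    rcases hε j with h | h <;> rw [h] <;> norm_num
  set A := ∑ j, ε j • (1 / (1 + lam (b j) ^ 2) * lam (b j)) • y (b j) with hA
  set B := ∑ j, ε j • (1 / (1 + lam (b j) ^ 2)) • y (b j) with hB
  have hAB : ‖A‖ ^ 2 + ‖B‖ ^ 2 ≤ N * (2 * (12 * M) ^ 2) := by
    refine hεs.trans ?_
    have e1 : ∀ j ∈ (Finset.univ : Finset s),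
        ‖(1 / (1 + lam (b j) ^ 2) * lam (b j)) • y (b j)‖ ^ 2 +
        ‖(1 / (1 + lam (b j) ^ 2)) • y (b j)‖ ^ 2 ≤ 2 * (12 * M) ^ 2 := by
      intro j _
      have e2 : (0 : ℝ) < 1 + lam (b j) ^ 2 := by positivity
      have e3 : |1 / (1 + lam (b j) ^ 2)| ≤ 1 := by
        rw [abs_of_pos (by positivity), div_le_one e2]
        have := sq_nonneg (lam (b j))
        linarith
      have e4 : |1 / (1 + lam (b j) ^ 2) * lam (b j)| ≤ 1 := by
        rw [one_div_mul_eq_div, abs_div, abs_of_pos e2, div_le_one e2]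
        have := sq_nonneg (|lam (b j)| - 1)
        have e5 := sq_abs (lam (b j))
        have e6 := abs_nonneg (lam (b j))
        nlinarith
      have e7 := hy2 (b j) (hb1 j)
      have e8 : ‖(1 / (1 + lam (b j) ^ 2) * lam (b j)) • y (b j)‖ ≤ 12 * M := by
        rw [norm_smul, Real.norm_eq_abs]
        exact (mul_le_of_le_one_left (norm_nonneg _) e4).trans e7
      have e9 : ‖(1 / (1 + lam (b j) ^ 2)) • y (b j)‖ ≤ 12 * M := by
        rw [norm_smul, Real.norm_eq_abs]
        exact (mul_le_of_le_one_left (norm_nonneg _) e3).trans e7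
      have e10 := pow_le_pow_left₀ (norm_nonneg _) e8 2
      have e11 := pow_le_pow_left₀ (norm_nonneg _) e9 2
      linarith
    refine (Finset.sum_le_sum e1).trans (le_of_eq ?_)
    rw [Finset.sum_const, Finset.card_univ, nsmul_eq_mul]
  have hA' : ‖A‖ ≤ 24 * M * Real.sqrt N := by
    refine abs_le_of_sq_le_sq' ?_ (by positivity) |>.2
    rw [mul_pow, Real.sq_sqrt hN0.le]
    have := sq_nonneg ‖B‖
    nlinarith [mul_nonneg hN0.le (sq_nonneg M)]
  have hB' : ‖B‖ ≤ 24 * M * Real.sqrt N := by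
    refine abs_le_of_sq_le_sq' ?_ (by positivity) |>.2
    rw [mul_pow, Real.sq_sqrt hN0.le]
    have := sq_nonneg ‖A‖
    nlinarith [mul_nonneg hN0.le (sq_nonneg M)]
  have hid : hcomb r b ε = -(ZM r).jj A - T ((ZM r).jj B) := by
    rw [hA, hB, map_sum, map_sum, map_sum, ← Finset.sum_neg_distrib, ← Finset.sum_sub_distrib]
    unfold hcomb
    refine Finset.sum_congr rfl fun j _ => ?_
    conv_lhs => rw [h2 (b j) (hb1 j)]
    simp only [map_smul, smul_sub, smul_neg]
  have hn : ‖hcomb r b ε‖ ≤ 24 * M * (1 + M) * Real.sqrt N := by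
    rw [hid]
    have e1 := norm_sub_le (-(ZM r).jj A) (T ((ZM r).jj B))
    rw [norm_neg] at e1
    have e2 := ((ZM r).jj_norm A).trans hA'
    have e3 := ((ZM r).jj_norm B).trans hB'
    have e4 := T.le_opNorm ((ZM r).jj B)
    have e5 := mul_le_mul_of_nonneg_left e3 hM0
    linarith
  have hn5 := le_norm_hcomb r hb hbal ε hε2
  rw [Real.sqrt_mul (by positivity)] at hn5
  have hn6 : Real.sqrt d * Real.sqrt N ≤ 288 * M * (1 + M) * Real.sqrt N := by
    rw [hN]
    rw [hN] at hn
    linarith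
  have hn7 := le_of_mul_le_mul_right hn6 (Real.sqrt_pos.2 hN0)
  rw [Real.sqrt_le_left (by positivity)] at hn7
  linarith

end Pool.Agent.N305.TH
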