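import Mathlib

/-!
# From a quasi-norm to a norm; twisted sums

`Q` is a homogeneous function on a real vector space with `Q (∑ z) ≤ K ∑ Q z` for all finite sums.
Then the infimum over the decompositions is a seminorm equivalent to `Q`.
-/

set_option autoImplicit false

namespace Pool.Agent.N305.TH

section quasi

variable {X : Type} [AddCommGroup X]

/-- infimum over the decompositions -/
noncomputable def infN (Q : X → ℝ) (z : X) : ℝ :=
  sInf {t | ∃ L : List X, L.sum = z ∧ (L.map Q).sum = t}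

variable {Q : X → ℝ} {K : ℝ}

lemma infN_bdd (hQ0 : ∀ z, 0 ≤ Q z) (z : X) :
    BddBelow {t | ∃ L : List X, L.sum = z ∧ (L.map Q).sum = t} := by
  refine ⟨0, ?_⟩
  rintro _ ⟨L, -, rfl⟩
  exact List.sum_nonneg (by simp only [List.mem_map]; rintro _ ⟨a, _, rfl⟩; exact hQ0 a)

lemma infN_ne (z : X) : {t | ∃ L : List X, L.sum = z ∧ (L.map Q).sum = t}.Nonempty :=
  ⟨_, [z], by simp, rfl⟩

lemma infN_le_sum (hQ0 : ∀ z, 0 ≤ Q z) (L : List X) : infN Q L.sum ≤ (L.map Q).sum :=
  csInf_le (infN_bdd hQ0 _) ⟨L, rfl, rfl⟩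

lemma infN_le (hQ0 : ∀ z, 0 ≤ Q z) (z : X) : infN Q z ≤ Q z := by
  have := infN_le_sum hQ0 [z]
  simpa using this

lemma infN_nonneg (hQ0 : ∀ z, 0 ≤ Q z) (z : X) : 0 ≤ infN Q z := by
  refine le_csInf (infN_ne z) ?_
  rintro _ ⟨L, -, rfl⟩
  exact List.sum_nonneg (by simp only [List.mem_map]; rintro _ ⟨a, _, rfl⟩; exact hQ0 a)

lemma le_infN (hK : 0 ≤ K) (hQ : ∀ L : List X, Q L.sum ≤ K * (L.map Q).sum) (z : X) :
    Q z ≤ K * infN Q z := by
  rcases hK.eq_or_lt with h | h
  · have := hQ [z]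
    rw [← h] at this ⊢
    simpa using this
  · have : Q z / K ≤ infN Q z := by
      refine le_csInf (infN_ne z) ?_
      rintro _ ⟨L, rfl, rfl⟩
      rw [div_le_iff₀ h, mul_comm]
      exact hQ L
    rwa [div_le_iff₀ h, mul_comm] at this

lemma infN_add_le (hQ0 : ∀ z, 0 ≤ Q z) (z w : X) : infN Q (z + w) ≤ infN Q z + infN Q w := by
  refine le_of_forall_pos_le_add fun ε hε => ?_
  obtain ⟨_, ⟨L, hL, rfl⟩, h1⟩ := exists_lt_of_csInf_lt (infN_ne (Q := Q) z)
    (lt_add_of_pos_right (infN Q z) (half_pos hε))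
  obtain ⟨_, ⟨L', hL', rfl⟩, h2⟩ := exists_lt_of_csInf_lt (infN_ne (Q := Q) w)
    (lt_add_of_pos_right (infN Q w) (half_pos hε))
  have h3 := infN_le_sum hQ0 (L ++ L')
  rw [List.sum_append, hL, hL', List.map_append, List.sum_append] at h3
  linarith

variable [Module ℝ X]

lemma infN_smul_le (hQ0 : ∀ z, 0 ≤ Q z) (hs : ∀ (c : ℝ) z, Q (c • z) = |c| * Q z) (c : ℝ) (z : X) :
    infN Q (c • z) ≤ |c| * infN Q z := by
  have key : ∀ L : List X, infN Q (c • L.sum) ≤ |c| * (L.map Q).sum := by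
    intro L
    have h1 : ∀ L : List X, c • L.sum = (L.map fun a => c • a).sum := by
      intro L
      induction L with
      | nil => simp
      | cons a L ih => rw [List.map_cons, List.sum_cons, List.sum_cons, smul_add, ih]
    have h2 : ∀ L : List X, ((L.map fun a => c • a).map Q).sum = |c| * (L.map Q).sum := by
      intro L
      induction L with
      | nil => simp
      | cons a L ih => simp only [List.map_cons, List.sum_cons, hs, ih, mul_add]
    rw [h1, ← h2]
    exact infN_le_sum hQ0 _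
  rcases (abs_nonneg c).eq_or_lt with h | h
  · have := key [z]
    rw [← h] at this ⊢
    simpa using this
  · have : infN Q (c • z) / |c| ≤ infN Q z := by
      refine le_csInf (infN_ne z) ?_
      rintro _ ⟨L, rfl, rfl⟩
      rw [div_le_iff₀ h, mul_comm]
      exact key L
    rwa [div_le_iff₀ h, mul_comm] at this

/-- the seminorm equivalent to `Q` -/
noncomputable def infSemi (Q : X → ℝ) (hQ0 : ∀ z, 0 ≤ Q z)
    (hs : ∀ (c : ℝ) z, Q (c • z) = |c| * Q z) : Seminorm ℝ X :=
  Seminorm.ofSMulLE (infN Q) (le_antisymm (by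
      have := infN_le hQ0 (0 : X)
      have h0 : Q 0 = 0 := by
        have := hs 0 0
        simpa using this
      rwa [h0] at this) (infN_nonneg hQ0 _))
    (infN_add_le hQ0) (fun c z => by
      rw [Real.norm_eq_abs]
      exact infN_smul_le hQ0 hs c z)

end quasi

end Pool.Agent.N305.TH
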