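import Pool.Agent.N305.TH.Energy

/-!
# Coordinate projections on the twisted sum; signs
-/

set_option autoImplicit false

open Filter Topology

namespace Pool.Agent.N305.TH

section signs

variable {Y : Type} [NormedAddCommGroup Y] [InnerProductSpace ℝ Y] {J : Type}

lemma exists_signs (s : Finset J) (y w : J → Y) : ∃ ε : J → ℝ, (∀ j, ε j = 1 ∨ ε j = -1) ∧
    ‖∑ j ∈ s, ε j • y j‖ ^ 2 + ‖∑ j ∈ s, ε j • w j‖ ^ 2 ≤ ∑ j ∈ s, (‖y j‖ ^ 2 + ‖w j‖ ^ 2) := by
  classical
  induction s using Finset.induction_on with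
  | empty => exact ⟨fun _ => 1, fun _ => Or.inl rfl, by simp⟩
  | insert i s hi ih =>
    obtain ⟨ε, h1, h2⟩ := ih
    set A := ∑ j ∈ s, ε j • y j with hA
    set B := ∑ j ∈ s, ε j • w j with hB
    obtain ⟨c, hc, hc'⟩ : ∃ c : ℝ, (c = 1 ∨ c = -1) ∧
        c * (inner ℝ A (y i) + inner ℝ B (w i)) ≤ 0 := by
      rcases le_total (inner ℝ A (y i) + inner ℝ B (w i)) 0 with h | h
      · exact ⟨1, Or.inl rfl, by linarith⟩
      · exact ⟨-1, Or.inr rfl, by linarith⟩
    refine ⟨Function.update ε i c, ?_, ?_⟩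
    · intro j
      by_cases h : j = i
      · rw [h, Function.update_self]
        exact hc
      · rw [Function.update_of_ne h]
        exact h1 j
    · have e1 : ∀ v : J → Y, ∑ j ∈ insert i s, Function.update ε i c j • v j =
          (∑ j ∈ s, ε j • v j) + c • v i := by
        intro v
        rw [Finset.sum_insert hi, Function.update_self, add_comm]
        congr 1
        refine Finset.sum_congr rfl fun j hj => ?_
        rw [Function.update_of_ne]
        rintro rfl
        exact hi hj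
      rw [e1, e1, Finset.sum_insert hi, ← hA, ← hB, norm_add_sq_real, norm_add_sq_real,
        real_inner_smul_right, real_inner_smul_right, norm_smul, norm_smul, mul_pow, mul_pow]
      have e2 : ‖c‖ ^ 2 = 1 := by
        rcases hc with h | h <;> rw [h] <;> norm_num
      rw [e2]
      nlinarith

end signs

section proj

variable {ι : Type} (r : ι → ℕ → Bool)

lemma proj_aux (S : Set ι) (x : L2 ι) : ∃ w : L2 (ℕ × ι),
    (∀ p, w p = (Prod.snd ⁻¹' S).indicator (FF r x) p - FF r (L2.ind S x) p) ∧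
      ‖w‖ ≤ 3 * ‖x‖ := by
  obtain ⟨y, hy, hy'⟩ := (ZM r).z [-x, L2.ind S x, L2.ind Sᶜ x] (by
    simp only [List.sum_cons, List.sum_nil, add_zero]
    rw [neg_add_eq_sub, sub_eq_zero]
    ext b
    show L2.ind S x b + L2.ind Sᶜ x b = x b
    by_cases hb : b ∈ S
    · rw [L2.ind_mem _ hb, L2.ind_notMem _ (by simpa using hb), add_zero]
    · rw [L2.ind_notMem _ hb, L2.ind_mem _ (by simpa using hb), zero_add])
  have hyp : ∀ p, y p = -FF r x p + FF r (L2.ind S x) p + FF r (L2.ind Sᶜ x) p := by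
    intro p
    have h1 := congrFun hy p
    have h2 : (ZM r).F (-x) = -(ZM r).F x := (ZM r).F_neg x
    simp only [List.map_cons, List.map_nil, List.sum_cons, List.sum_nil, add_zero, h2] at h1
    have h3 : y p = -FF r x p + (FF r (L2.ind S x) p + FF r (L2.ind Sᶜ x) p) := h1
    rw [h3]
    ring
  refine ⟨-L2.ind (Prod.snd ⁻¹' S) y, ?_, ?_⟩
  · intro p
    show -(L2.ind (Prod.snd ⁻¹' S) y p) = _
    by_cases hp : p.2 ∈ S
    · have hp' : p ∈ Prod.snd ⁻¹' S := hp
      rw [L2.ind_mem _ hp', Set.indicator_of_mem hp', hyp]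
      have : FF r (L2.ind Sᶜ x) p = 0 := by
        unfold FF
        rw [L2.ind_notMem x (show p.2 ∉ Sᶜ by simpa using hp), mul_zero]
      rw [this]
      ring
    · have hp' : p ∉ Prod.snd ⁻¹' S := hp
      rw [L2.ind_notMem _ hp', Set.indicator_of_notMem hp']
      have : FF r (L2.ind S x) p = 0 := by
        unfold FF
        rw [L2.ind_notMem x hp, mul_zero]
      rw [this]
      norm_num
  · rw [norm_neg]
    refine (L2.ind_le _ _).trans (hy'.trans ?_)
    simp only [List.map_cons, List.map_nil, List.sum_cons, List.sum_nil, add_zero, norm_neg]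
    have h1 := L2.ind_le S x
    have h2 := L2.ind_le Sᶜ x
    linarith

lemma proj_aux2 (S : Set ι) (x : L2 ι) (a : ℕ × ι → ℝ) (y : L2 (ℕ × ι))
    (h : ∀ p, y p = a p - FF r x p) :
    ∃ w : L2 (ℕ × ι), (∀ p, w p = (Prod.snd ⁻¹' S).indicator a p - FF r (L2.ind S x) p) ∧
      ‖w‖ ≤ ‖y‖ + 3 * ‖x‖ := by
  obtain ⟨w, h1, h2⟩ := proj_aux r S x
  refine ⟨L2.ind (Prod.snd ⁻¹' S) y + w, ?_, (norm_add_le _ _).trans
    (add_le_add (L2.ind_le _ _) h2)⟩
  intro p
  show L2.ind (Prod.snd ⁻¹' S) y p + w p = _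
  rw [h1]
  by_cases hp : p ∈ Prod.snd ⁻¹' S
  · rw [L2.ind_mem _ hp, Set.indicator_of_mem hp, Set.indicator_of_mem hp, h]
    ring
  · rw [L2.ind_notMem _ hp, Set.indicator_of_notMem hp, Set.indicator_of_notMem hp]
    ring

/-- the coordinate projection -/
noncomputable def RR0 (S : Set ι) : (ZM r).Sp →ₗ[ℝ] (ZM r).Sp where
  toFun z := ⟨(L2.ind S z.1.1, (Prod.snd ⁻¹' S).indicator z.1.2), by
    obtain ⟨y, hy⟩ := z.2
    obtain ⟨w, hw, -⟩ := proj_aux2 r S z.1.1 z.1.2 y (fun p => congrFun hy p)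
    exact ⟨w, funext hw⟩⟩
  map_add' z w := by
    apply Subtype.ext
    refine Prod.ext ?_ ?_
    · exact map_add (L2.ind S) z.1.1 w.1.1
    · exact Set.indicator_add' _ z.1.2 w.1.2
  map_smul' c z := by
    apply Subtype.ext
    refine Prod.ext ?_ ?_
    · exact map_smul (L2.ind S) c z.1.1
    · funext p
      exact Set.indicator_const_smul_apply _ c z.1.2 p

lemma RR0_norm (S : Set ι) (z : (ZM r).Sp) : ‖RR0 r S z‖ ≤ 12 * ‖z‖ := by
  obtain ⟨y, h1, h2, -⟩ := (ZM r).repr z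
  obtain ⟨w, hw, hw'⟩ := proj_aux2 r S ((ZM r).q z) ((ZM r).kap z) y (fun p => by
    have h3 : (ZM r).kap z p = FF r ((ZM r).q z) p + y p := congrFun h1 p
    linarith)
  have h3 := ((ZM r).repr_norm (RR0 r S z) w (by
    funext p
    show (Prod.snd ⁻¹' S).indicator ((ZM r).kap z) p = FF r (L2.ind S ((ZM r).q z)) p + w p
    rw [hw]
    ring)).2
  have h4 : (ZM r).q (RR0 r S z) = L2.ind S ((ZM r).q z) := rfl
  rw [h4] at h3
  have h5 := L2.ind_le S ((ZM r).q z)
  have h6 := norm_nonneg y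
  linarith

/-- the coordinate projection -/
noncomputable def RR (S : Set ι) : (ZM r).Sp →L[ℝ] (ZM r).Sp :=
  LinearMap.mkContinuous (RR0 r S) 12 (RR0_norm r S)

lemma q_RR (S : Set ι) (z : (ZM r).Sp) : (ZM r).q (RR r S z) = L2.ind S ((ZM r).q z) := rfl

lemma RR_norm (S : Set ι) (z : (ZM r).Sp) : ‖RR r S z‖ ≤ 12 * ‖z‖ := RR0_norm r S z

end proj

end Pool.Agent.N305.TH
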