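import Pool.Agent.N305.TH.Select2

/-!
# A rigid family of branches
-/

set_option autoImplicit false

open Filter Topology Cardinal

namespace Pool.Agent.N305.TH

lemma exists_avoid {ι X : Type} [LinearOrder ι] [WellFoundedLT ι]
    (bad : (c : ι) → ((a : ι) → a < c → X) → Set X) (h : ∀ c f, ∃ x, x ∉ bad c f) :
    ∃ r : ι → X, ∀ c, r c ∉ bad c (fun a _ => r a) := by
  classical
  set r : ι → X := (wellFounded_lt (α := ι)).fix
    (C := fun _ => X) (fun c f => Classical.choose (h c f)) with hr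
  refine ⟨r, fun c => ?_⟩
  have h1 : r c = Classical.choose (h c fun a _ => r a) := by
    rw [hr]
    exact (wellFounded_lt (α := ι)).fix_eq _ c
  rw [h1]
  exact Classical.choose_spec (h c fun a _ => r a)

/-- initial segments -/
def pre (n : ℕ) (ξ : ℕ → Bool) : List Bool := (List.range n).map ξ

lemma pre_length (n : ℕ) (ξ : ℕ → Bool) : (pre n ξ).length = n := by
  unfold pre
  rw [List.length_map, List.length_range]

lemma pre_eq {n : ℕ} {ξ η : ℕ → Bool} : pre n ξ = pre n η ↔ agree n ξ η := by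
  unfold pre agree
  rw [List.map_inj_left]
  simp only [List.mem_range]

/-- codes -/
abbrev Code : Type := Set (ℕ × List Bool × List Bool)

/-- the relation with a given code -/
def RD (D : Code) (k : ℕ) (ξ η : ℕ → Bool) : Prop := ∀ n, (k, pre n ξ, pre n η) ∈ D

lemma mk_code : #Code = 𝔠 := by
  have h1 : #(ℕ × List Bool × List Bool) = ℵ₀ := mk_eq_aleph0 _
  rw [mk_set, h1, two_power_aleph0]

/-- the index type -/
abbrev II : Type := (Cardinal.continuum.ord).ToType

lemma mk_II : #II = 𝔠 := mk_ord_toType _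

lemma mk_Iio_II (c : II) : #(Set.Iio c) < 𝔠 := by
  have h := Cardinal.mk_Iio_lt c (by simp)
  rwa [mk_II] at h

lemma exists_rigid : ∃ r : II → ℕ → Bool, Function.Injective r ∧ ∀ D : Code, ∃ G : Set II,
    ¬(Gᶜ).Countable ∧ ∀ k a b, a ≠ b → a ∉ G → RD D k (r a) (r b) →
      {η | RD D k (r a) η}.Countable → {ξ | RD D k ξ (r b)}.Countable → False := by
  classical
  obtain ⟨e⟩ : Nonempty (II ≃ Code) := Cardinal.eq.1 (mk_II.trans mk_code.symm)
  set bigL : II → ℕ → (ℕ → Bool) → Set (ℕ → Bool) := fun D k ξ =>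
    {η | RD (e D) k ξ η ∧ {η | RD (e D) k ξ η}.Countable} with hL
  set bigR : II → ℕ → (ℕ → Bool) → Set (ℕ → Bool) := fun D k η =>
    {ξ | RD (e D) k ξ η ∧ {ξ | RD (e D) k ξ η}.Countable} with hR
  have hLc : ∀ D k ξ, (bigL D k ξ).Countable := by
    intro D k ξ
    by_cases h : {η | RD (e D) k ξ η}.Countable
    · exact h.mono fun η hη => hη.1
    · refine Set.Countable.mono ?_ Set.countable_empty
      intro η hη
      exact h hη.2
  have hRc : ∀ D k η, (bigR D k η).Countable := by
    intro D k ξ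
    by_cases h : {η | RD (e D) k η ξ}.Countable
    · exact h.mono fun η hη => hη.1
    · refine Set.Countable.mono ?_ Set.countable_empty
      intro η hη
      exact h hη.2
  obtain ⟨r, hr⟩ := exists_avoid (ι := II) (X := ℕ → Bool)
    (fun c f => ⋃ p : Set.Iio c × Set.Iio c × ℕ,
      bigL p.1.1 p.2.2 (f p.2.1.1 p.2.1.2) ∪ bigR p.1.1 p.2.2 (f p.2.1.1 p.2.1.2) ∪
        {f p.2.1.1 p.2.1.2}) (by
      intro c f
      by_contra h
      push Not at h
      set W : Set.Iio c × Set.Iio c × ℕ → Set (ℕ → Bool) := fun p =>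
        bigL p.1.1 p.2.2 (f p.2.1.1 p.2.1.2) ∪ bigR p.1.1 p.2.2 (f p.2.1.1 p.2.1.2) ∪
          {f p.2.1.1 p.2.1.2} with hW
      have h1 : (⋃ p, W p) = Set.univ := Set.eq_univ_of_forall h
      have h2 : #(ℕ → Bool) = 𝔠 := by simp
      have h3 : #(⋃ p, W p) = 𝔠 := by rw [h1, mk_univ, h2]
      have h4 : #(⋃ p, W p) ≤ #(Set.Iio c × Set.Iio c × ℕ) * ℵ₀ := by
        refine (mk_iUnion_le _).trans ?_
        refine mul_le_mul_right ?_ _
        refine ciSup_le' fun p => ?_
        rw [le_aleph0_iff_set_countable]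
        exact ((hLc _ _ _).union (hRc _ _ _)).union (Set.countable_singleton _)
      have h5 : #(Set.Iio c × Set.Iio c × ℕ) * ℵ₀ < 𝔠 := by
        refine mul_lt_of_lt aleph0_le_continuum ?_ aleph0_lt_continuum
        rw [mk_prod, mk_prod]
        simp only [lift_id]
        refine mul_lt_of_lt aleph0_le_continuum (mk_Iio_II c) ?_
        refine mul_lt_of_lt aleph0_le_continuum (mk_Iio_II c) ?_
        rw [mk_nat]
        exact aleph0_lt_continuum
      exact absurd h3 (h4.trans_lt h5).ne)
  have key : ∀ D a c : II, D < c → a < c → ∀ k, r c ∉ bigL D k (r a) ∧ r c ∉ bigR D k (r a) ∧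
      r c ≠ r a := by
    intro D a c hD ha k
    have h1 := hr c
    rw [Set.mem_iUnion] at h1
    push Not at h1
    have h2 := h1 (⟨D, hD⟩, ⟨a, ha⟩, k)
    simp only [Set.mem_union, not_or, Set.mem_singleton_iff] at h2
    exact ⟨h2.1.1, h2.1.2, h2.2⟩
  refine ⟨r, ?_, ?_⟩
  · intro a b hab
    by_contra hne
    rcases lt_or_gt_of_ne hne with h | h
    · exact (key a a b h h 0).2.2 hab.symm
    · exact (key b b a h h 0).2.2 hab
  · intro D
    refine ⟨Set.Iic (e.symm D), ?_, ?_⟩
    · intro hc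
      have h1 : #(Set.Iic (e.symm D)) < 𝔠 := by
        have h2 : #(Set.Iic (e.symm D)) ≤ #(Set.Iio (e.symm D)) + 1 := by
          rw [← Set.Iio_union_right]
          refine (mk_union_le _ _).trans ?_
          rw [mk_singleton]
        refine h2.trans_lt ?_
        exact add_lt_of_lt aleph0_le_continuum (mk_Iio_II _)
          (one_lt_aleph0.trans aleph0_lt_continuum)
      have h2 : #((Set.Iic (e.symm D))ᶜ : Set II) < 𝔠 :=
        (le_aleph0_iff_set_countable.2 hc).trans_lt aleph0_lt_continuum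
      have h3 := mk_sum_compl (Set.Iic (e.symm D))
      rw [mk_II] at h3
      exact absurd h3 (add_lt_of_lt aleph0_le_continuum h1 h2).ne
    · intro k a b hab ha hRD h1 h2
      have ha' : e.symm D < a := not_le.1 ha
      have hD : e (e.symm D) = D := e.apply_symm_apply D
      rcases lt_or_gt_of_ne hab with h | h
      · refine (key (e.symm D) a b (ha'.trans h) h k).1 ?_
        show RD (e (e.symm D)) k (r a) (r b) ∧ {η | RD (e (e.symm D)) k (r a) η}.Countable
        rw [hD]
        exact ⟨hRD, h1⟩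
      · refine (key (e.symm D) b a ha' h k).2.1 ?_
        show RD (e (e.symm D)) k (r a) (r b) ∧ {η | RD (e (e.symm D)) k η (r b)}.Countable
        rw [hD]
        exact ⟨hRD, h2⟩

/-- the diagonalization: off an uncountable set of rows the matrix is diagonal -/
lemma rigid_mat {r : II → ℕ → Bool} (hr : Function.Injective r)
    (hD : ∀ D : Code, ∃ G : Set II,
      ¬(Gᶜ).Countable ∧ ∀ k a b, a ≠ b → a ∉ G → RD D k (r a) (r b) →
        {η | RD D k (r a) η}.Countable → {ξ | RD D k ξ (r b)}.Countable → False)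
    {v : II → II → ℝ} (h : Mat r v) : ¬{a | ∀ b, b ≠ a → v a b = 0}.Countable := by
  classical
  set P : ℕ → II → II → Prop := fun k a b => a ≠ b ∧ 1 / ((k : ℝ) + 1) ≤ |v a b| with hP
  set D : Code := {p | ∃ a b, P p.1 a b ∧ pre p.2.1.length (r a) = p.2.1 ∧
    pre p.2.2.length (r b) = p.2.2} with hDD
  have hRD : ∀ k ξ η, RD D k ξ η ↔ Cl r (P k) ξ η := by
    intro k ξ η
    unfold RD Cl
    refine forall_congr' fun n => ?_
    rw [hDD]
    show (∃ a b, P k a b ∧ pre (pre n ξ).length (r a) = pre n ξ ∧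
      pre (pre n η).length (r b) = pre n η) ↔ _
    rw [pre_length, pre_length]
    simp only [pre_eq]
  obtain ⟨G, hG1, hG2⟩ := hD D
  have hk : ∀ k : ℕ, (0 : ℝ) < 1 / ((k : ℝ) + 1) := fun k => by positivity
  have hPk : ∀ k a b, P k a b → 1 / ((k : ℝ) + 1) ≤ |v a b| := fun k a b h => h.2
  intro hc
  apply hG1
  set Exc : Set II := ⋃ k, ⋃ b ∈ {b | ¬{ξ | Cl r (P k) ξ (r b)}.Countable}, {a | P k a b} with hExc
  have hExcC : Exc.Countable := by
    refine Set.countable_iUnion fun k => Set.Countable.biUnion ?_ fun b _ => ?_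
    · exact (cl_section' hr h (hk k) (hPk k)).preimage hr
    · exact (fin_col hr h (hk k) (hPk k) b).countable
  refine (hc.union hExcC).mono ?_
  intro a ha
  by_cases h1 : a ∈ Exc
  · exact Or.inr h1
  · left
    intro b hb
    by_contra h2
    obtain ⟨k, hk'⟩ := exists_nat_one_div_lt (abs_pos.2 h2)
    have h3 : P k a b := ⟨hb.symm, hk'.le⟩
    have h4 : RD D k (r a) (r b) := by
      rw [hRD]
      exact fun m => ⟨a, b, h3, agree.refl _ _, agree.refl _ _⟩
    refine hG2 k a b hb.symm ha h4 ?_ ?_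
    · simp only [hRD]
      exact cl_section hr h (hk k) (hPk k) (r a)
    · simp only [hRD]
      by_contra h5
      apply h1
      rw [hExc, Set.mem_iUnion]
      refine ⟨k, ?_⟩
      rw [Set.mem_iUnion₂]
      exact ⟨b, h5, h3⟩

end Pool.Agent.N305.TH
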