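import Pool.Agent.N305.TH.Energy

/-!
# Selections
-/

set_option autoImplicit false

open Filter Topology

namespace Pool.Agent.N305.TH

section sel

lemma sel {Ω J : Type} [Fintype J] (F : J → Filter Ω) (hF : ∀ j, (F j).NeBot)
    (ok : J → Ω → Prop) (Rel : Ω → Ω → Prop) (hok : ∀ j, ∀ᶠ q in F j, ok j q)
    (hrel : ∀ i j p, ok i p → ∀ᶠ q in F j, Rel p q ∧ Rel q p) :
    ∃ p : J → Ω, (∀ j, ok j (p j)) ∧ ∀ i j, i ≠ j → Rel (p i) (p j) := by
  classical
  have key : ∀ s : Finset J, ∃ p : J → Ω, (∀ j ∈ s, ok j (p j)) ∧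
      ∀ i ∈ s, ∀ j ∈ s, i ≠ j → Rel (p i) (p j) := by
    intro s
    induction s using Finset.induction_on with
    | empty =>
      have : ∀ j, ∃ q, ok j q := fun j => by
        have := hF j
        exact (hok j).exists
      choose p hp using this
      exact ⟨p, by simp, by simp⟩
    | insert k s hk ih =>
      obtain ⟨p, h1, h2⟩ := ih
      have h3 : ∀ᶠ q in F k, ok k q ∧ ∀ i ∈ s, Rel (p i) q ∧ Rel q (p i) := by
        refine (hok k).and ?_
        rw [Finset.eventually_all]
        intro i hi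
        exact hrel i k (p i) (h1 i hi)
      have := hF k
      obtain ⟨q, hq1, hq2⟩ := h3.exists
      have hne : ∀ i ∈ s, i ≠ k := by
        rintro i hi rfl
        exact hk hi
      refine ⟨Function.update p k q, ?_, ?_⟩
      · intro j hj
        rcases Finset.mem_insert.1 hj with h | h
        · rw [h, Function.update_self]
          exact hq1
        · rw [Function.update_of_ne (hne j h)]
          exact h1 j h
      · intro i hi j hj hij
        rcases Finset.mem_insert.1 hi with hi' | hi' <;>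
          rcases Finset.mem_insert.1 hj with hj' | hj'
        · exact absurd (hi'.trans hj'.symm) hij
        · rw [hi', Function.update_self, Function.update_of_ne (hne j hj')]
          exact (hq2 j hj').2
        · rw [hj', Function.update_self, Function.update_of_ne (hne i hi')]
          exact (hq2 i hi').1
        · rw [Function.update_of_ne (hne i hi'), Function.update_of_ne (hne j hj')]
          exact h2 i hi' j hj' hij
  obtain ⟨p, h1, h2⟩ := key Finset.univ
  exact ⟨p, fun j => h1 j (Finset.mem_univ j),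
    fun i j => h2 i (Finset.mem_univ i) j (Finset.mem_univ j)⟩

end sel

section branches

lemma exists_lev {ξ η : ℕ → Bool} (h : ξ ≠ η) : ∃ l, agree l ξ η ∧ ξ l ≠ η l := by
  classical
  have h1 : ∃ l, ξ l ≠ η l := by
    by_contra h2
    push Not at h2
    exact h (funext h2)
  refine ⟨Nat.find h1, fun k hk => ?_, Nat.find_spec h1⟩
  by_contra h2
  exact Nat.find_min h1 hk h2

/-- the limit of an ultrafilter -/
lemma exists_lim {Ω : Type} (U : Ultrafilter Ω) (r : Ω → ℕ → Bool) :
    ∃ ξ : ℕ → Bool, ∀ m, ∀ᶠ a in (U : Filter Ω), agree m (r a) ξ := by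
  have h1 : ∀ k, ∃ c, ∀ᶠ a in (U : Filter Ω), r a k = c := by
    intro k
    rcases U.em (fun a => r a k = true) with h | h
    · exact ⟨true, h⟩
    · exact ⟨false, h.mono fun a ha => by simpa using ha⟩
  choose ξ hξ using h1
  refine ⟨ξ, fun m => ?_⟩
  have : ∀ᶠ a in (U : Filter Ω), ∀ k ∈ Finset.range m, r a k = ξ k := by
    rw [Finset.eventually_all]
    exact fun k _ => hξ k
  exact this.mono fun a ha k hk => ha k (Finset.mem_range.2 hk)

/-- condensation points -/
lemma exists_cond (E : Set (ℕ → Bool)) (hE : ¬E.Countable) : ∃ ξ : ℕ → Bool,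
    (∀ m, ¬{η ∈ E | agree m η ξ}.Countable) ∧
      ∀ m, ∃ l ≥ m, ¬{η ∈ E | agree l η ξ ∧ η l ≠ ξ l}.Countable := by
  have h0 : ((Filter.cocountable : Filter (ℕ → Bool)) ⊓ 𝓟 E).NeBot := by
    rw [Filter.inf_principal_neBot_iff]
    intro U hU
    by_contra h
    rw [Set.not_nonempty_iff_eq_empty] at h
    rw [Filter.mem_cocountable] at hU
    apply hE
    have h1 : E ⊆ Uᶜ := by
      intro x hx hxU
      have : x ∈ U ∩ E := ⟨hxU, hx⟩
      rw [h] at this
      exact this
    exact hU.mono h1
  obtain ⟨ξ, hξ⟩ := exists_lim (Ultrafilter.of ((Filter.cocountable : Filter (ℕ → Bool)) ⊓ 𝓟 E)) id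
  have h1 : ∀ m, ¬{η ∈ E | agree m η ξ}.Countable := by
    intro m hm
    have h2 : ∀ᶠ a in ((Ultrafilter.of ((Filter.cocountable : Filter (ℕ → Bool)) ⊓ 𝓟 E) :
        Ultrafilter _) : Filter (ℕ → Bool)), a ∈ E :=
      (Ultrafilter.of_le _) (Filter.mem_inf_of_right (Filter.mem_principal_self E))
    have h3 : ∀ᶠ a in ((Ultrafilter.of ((Filter.cocountable : Filter (ℕ → Bool)) ⊓ 𝓟 E) :
        Ultrafilter _) : Filter (ℕ → Bool)), a ∉ {η ∈ E | agree m η ξ} :=
      (Ultrafilter.of_le _) (Filter.mem_inf_of_left (by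
        rw [Filter.mem_cocountable]
        refine hm.mono fun x hx => ?_
        by_contra h
        exact hx h))
    obtain ⟨a, ha1, ha2, ha3⟩ := ((hξ m).and (h2.and h3)).exists
    exact ha3 ⟨ha2, ha1⟩
  refine ⟨ξ, h1, fun m => ?_⟩
  by_contra h
  push Not at h
  apply h1 m
  have h2 : {η ∈ E | agree m η ξ} ⊆ {ξ} ∪ ⋃ l : {l // l ≥ m},
      {η ∈ E | agree l η ξ ∧ η l ≠ ξ l} := by
    rintro η ⟨h3, h4⟩
    by_cases h5 : η = ξ
    · exact Or.inl h5
    · right
      obtain ⟨l, h6, h7⟩ := exists_lev h5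
      rw [Set.mem_iUnion]
      refine ⟨⟨l, ?_⟩, h3, h6, h7⟩
      by_contra h8
      exact h7 (h4 l (not_le.1 h8))
  refine Set.Countable.mono h2 ((Set.countable_singleton ξ).union ?_)
  exact Set.countable_iUnion fun l => h l.1 l.2

open Classical in
/-- balanced finite sets -/
def FBal (d : ℕ) (s : Finset (ℕ → Bool)) : Prop :=
  ∀ η ∈ s, ∃ T : Finset ℕ, T.card = d ∧ ∀ l ∈ T,
    2 * (s.filter fun ζ => agree (l + 1) ζ η).card = (s.filter fun ζ => agree l ζ η).card

open Classical in
lemma exists_bal (d : ℕ) : ∀ E : Set (ℕ → Bool), ¬E.Countable →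
    ∃ s : Finset (ℕ → Bool), (∀ η ∈ s, η ∈ E) ∧ s.card = 2 ^ d ∧ FBal d s := by
  induction d with
  | zero =>
    intro E hE
    have : E.Nonempty := by
      by_contra h
      rw [Set.not_nonempty_iff_eq_empty] at h
      rw [h] at hE
      exact hE Set.countable_empty
    obtain ⟨η, hη⟩ := this
    refine ⟨{η}, by simpa using hη, by simp, fun _ _ => ⟨∅, by simp, by simp⟩⟩
  | succ d ih =>
    intro E hE
    obtain ⟨ξ, h1, h2⟩ := exists_cond E hE
    obtain ⟨l, -, hl⟩ := h2 0
    obtain ⟨s0, a1, a2, a3⟩ := ih _ (h1 (l + 1))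
    obtain ⟨s1, b1, b2, b3⟩ := ih _ hl
    have hd : Disjoint s0 s1 := by
      rw [Finset.disjoint_left]
      intro η h3 h4
      exact (b1 η h4).2.2 ((a1 η h3).2 l (Nat.lt_succ_self l))
    have hpos : 0 < 2 ^ d := by positivity
    -- the two halves, symmetric form
    have main : ∀ (s t : Finset (ℕ → Bool)), s.card = 2 ^ d → t.card = 2 ^ d → FBal d s →
        Disjoint s t →
        (∀ η ∈ s, ∀ ζ ∈ s, agree (l + 1) ζ η) → (∀ η ∈ s, ∀ ζ ∈ t, agree l ζ η ∧ ζ l ≠ η l) →
        ∀ η ∈ s, ∃ T : Finset ℕ, T.card = d + 1 ∧ ∀ l ∈ T,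
          2 * ((s ∪ t).filter fun ζ => agree (l + 1) ζ η).card =
            ((s ∪ t).filter fun ζ => agree l ζ η).card := by
      intro s t hs ht hb hst e1 e2 η hη
      obtain ⟨T, hT1, hT2⟩ := hb η hη
      have f1 : ∀ k ≤ l + 1, (s.filter fun ζ => agree k ζ η) = s := by
        intro k hk
        rw [Finset.filter_true_of_mem]
        intro ζ hζ
        exact (e1 η hη ζ hζ).mono hk
      have f2 : ∀ k, l + 1 ≤ k → (t.filter fun ζ => agree k ζ η) = ∅ := by
        intro k hk
        rw [Finset.filter_false_of_mem]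
        intro ζ hζ h
        exact (e2 η hη ζ hζ).2 (h l hk)
      have f3 : (t.filter fun ζ => agree l ζ η) = t := by
        rw [Finset.filter_true_of_mem]
        intro ζ hζ
        exact (e2 η hη ζ hζ).1
      have f4 : ∀ k ∈ T, l < k := by
        intro k hk
        by_contra h
        have h5 := hT2 k hk
        rw [f1 k (by omega), f1 (k + 1) (by omega), hs] at h5
        omega
      refine ⟨insert l T, ?_, ?_⟩
      · rw [Finset.card_insert_of_notMem (fun h => lt_irrefl l (f4 l h)), hT1]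
      · intro k hk
        rcases Finset.mem_insert.1 hk with h | h
        · rw [h, Finset.filter_union, Finset.filter_union, f1 (l + 1) le_rfl,
            f1 l (Nat.le_succ l), f2 (l + 1) le_rfl, f3, Finset.union_empty,
            Finset.card_union_of_disjoint hst, hs, ht]
          ring
        · have h6 := f4 k h
          rw [Finset.filter_union, Finset.filter_union, f2 k h6, f2 (k + 1) (by omega),
            Finset.union_empty, Finset.union_empty]
          exact hT2 k h
    refine ⟨s0 ∪ s1, ?_, ?_, ?_⟩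
    · intro η hη
      rcases Finset.mem_union.1 hη with h | h
      · exact (a1 η h).1
      · exact (b1 η h).1
    · rw [Finset.card_union_of_disjoint hd, a2, b2]
      ring
    · intro η hη
      have c1 : ∀ η ∈ s0, ∀ ζ ∈ s0, agree (l + 1) ζ η :=
        fun η h ζ h' => agree.trans (a1 ζ h').2 (agree.symm (a1 η h).2)
      have c2 : ∀ η ∈ s1, ∀ ζ ∈ s1, agree (l + 1) ζ η := by
        intro η h ζ h'
        refine agree_succ.2 ⟨agree.trans (b1 ζ h').2.1 (agree.symm (b1 η h).2.1), ?_⟩
        have e1 := (b1 ζ h').2.2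
        have e2 := (b1 η h).2.2
        revert e1 e2
        cases ζ l <;> cases η l <;> cases ξ l <;> simp
      have c3 : ∀ η ∈ s0, ∀ ζ ∈ s1, agree l ζ η ∧ ζ l ≠ η l := by
        intro η h ζ h'
        have e1 := agree_succ.1 (a1 η h).2
        have e2 := (b1 ζ h').2
        exact ⟨agree.trans e2.1 (agree.symm e1.1), by rw [e1.2]; exact e2.2⟩
      rcases Finset.mem_union.1 hη with h | h
      · exact main s0 s1 a2 b2 a3 hd c1 c3 η h
      · rw [Finset.union_comm]
        refine main s1 s0 b2 a2 b3 hd.symm c2 ?_ η h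
        intro η h ζ h'
        exact ⟨agree.symm (c3 ζ h' η h).1, (c3 ζ h' η h).2.symm⟩

/-- balancedness is stable under approximation -/
lemma FBal.approx {d : ℕ} {s : Finset (ℕ → Bool)} (h : FBal d s) : ∃ m, ∀ m' ≥ m,
    ∀ β : s → ℕ → Bool, (∀ j, agree m' (β j) j.1) → IsBal d β := by
  classical
  choose T hT hT' using h
  obtain ⟨m, hm⟩ : ∃ m, ∀ j : s, ∀ l ∈ T j.1 j.2, l < m := by
    refine ⟨(Finset.univ.sup fun j : s => (T j.1 j.2).sup id) + 1, fun j l hl => ?_⟩
    refine Nat.lt_succ_of_le ?_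
    exact (Finset.le_sup (f := id) hl).trans
      (Finset.le_sup (f := fun j : s => (T j.1 j.2).sup id) (Finset.mem_univ j))
  refine ⟨m, fun m' hm' β hβ j => ⟨T j.1 j.2, hT j.1 j.2, fun l hl => ?_⟩⟩
  have hl' := hm j l hl
  have key : ∀ k ≤ m', Nat.card {i // agree k (β i) (β j)} =
      (s.filter fun ζ => agree k ζ j.1).card := by
    intro k hk
    have h1 : ∀ i : s, agree k (β i) (β j) ↔ agree k i.1 j.1 := by
      intro i
      have e1 := (hβ i).mono hk
      have e2 := (hβ j).mono hk
      exact ⟨fun h => (e1.symm.trans h).trans e2, fun h => (e1.trans h).trans e2.symm⟩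
    rw [Nat.card_eq_fintype_card, Fintype.card_subtype, Finset.card_filter, Finset.card_filter]
    simp only [h1]
    exact Finset.sum_coe_sort s fun ζ => if agree k ζ j.1 then 1 else 0
  rw [key _ (by omega), key _ (by omega)]
  exact hT' j.1 j.2 l hl

end branches

end Pool.Agent.N305.TH
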