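import Pool.Agent.N305.TH.Select

/-!
# Countable sections
-/

set_option autoImplicit false

open Filter Topology

namespace Pool.Agent.N305.TH

section pairs

variable {ι : Type} (r : ι → ℕ → Bool) (P : ι → ι → Prop)

/-- the filter of neighbourhoods of `(ξ, η)` in `P`, modulo finitely many rows and columns -/
def PF (ξ η : ℕ → Bool) : Filter (ι × ι) where
  sets := {S | ∃ A B : Set ι, A.Finite ∧ B.Finite ∧ ∃ m, ∀ a b, P a b → a ∉ A → b ∉ B →
    agree m (r a) ξ → agree m (r b) η → (a, b) ∈ S}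
  univ_sets := ⟨∅, ∅, Set.finite_empty, Set.finite_empty, 0, fun _ _ _ _ _ _ _ => Set.mem_univ _⟩
  sets_of_superset := by
    rintro S S' ⟨A, B, hA, hB, m, h⟩ hS
    exact ⟨A, B, hA, hB, m, fun a b h1 h2 h3 h4 h5 => hS (h a b h1 h2 h3 h4 h5)⟩
  inter_sets := by
    rintro S S' ⟨A, B, hA, hB, m, h⟩ ⟨A', B', hA', hB', m', h'⟩
    refine ⟨A ∪ A', B ∪ B', hA.union hA', hB.union hB', max m m', fun a b h1 h2 h3 h4 h5 => ?_⟩
    rw [Set.mem_union, not_or] at h2 h3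
    exact ⟨h a b h1 h2.1 h3.1 (h4.mono (le_max_left _ _)) (h5.mono (le_max_left _ _)),
      h' a b h1 h2.2 h3.2 (h4.mono (le_max_right _ _)) (h5.mono (le_max_right _ _))⟩

variable {P}

lemma PF_P (ξ η : ℕ → Bool) : ∀ᶠ p in PF r P ξ η, P p.1 p.2 :=
  ⟨∅, ∅, Set.finite_empty, Set.finite_empty, 0, fun _ _ h _ _ _ _ => h⟩

lemma PF_fst (ξ η : ℕ → Bool) {A : Set ι} (hA : A.Finite) : ∀ᶠ p in PF r P ξ η, p.1 ∉ A :=
  ⟨A, ∅, hA, Set.finite_empty, 0, fun _ _ _ h _ _ _ => h⟩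

lemma PF_snd (ξ η : ℕ → Bool) {B : Set ι} (hB : B.Finite) : ∀ᶠ p in PF r P ξ η, p.2 ∉ B :=
  ⟨∅, B, Set.finite_empty, hB, 0, fun _ _ _ _ h _ _ => h⟩

lemma PF_agree (ξ η : ℕ → Bool) (m : ℕ) : ∀ᶠ p in PF r P ξ η, agree m (r p.1) ξ ∧
    agree m (r p.2) η :=
  ⟨∅, ∅, Set.finite_empty, Set.finite_empty, m, fun _ _ _ _ _ h h' => ⟨h, h'⟩⟩

/-- closure -/
def Cl (P : ι → ι → Prop) (ξ η : ℕ → Bool) : Prop :=
  ∀ m, ∃ a b, P a b ∧ agree m (r a) ξ ∧ agree m (r b) η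

lemma eq_of_agree {ξ η : ℕ → Bool} (h : ∀ m, agree m ξ η) : ξ = η :=
  funext fun k => h (k + 1) k (Nat.lt_succ_self k)

lemma Cl.good (hcol : ∀ b, {a | P a b}.Finite) (hrow : ∀ a, {b | P a b}.Finite)
    {ξ η : ℕ → Bool} (h : Cl r P ξ η) :
    (∃ a b, P a b ∧ r a = ξ ∧ r b = η) ∨ (PF r P ξ η).NeBot := by
  classical
  by_contra hc
  push Not at hc
  obtain ⟨h1, h2⟩ := hc
  rw [← Filter.empty_mem_iff_bot] at h2
  obtain ⟨A, B, hA, hB, m, h3⟩ := h2
  set K : Set (ι × ι) := {p | P p.1 p.2 ∧ (p.1 ∈ A ∨ p.2 ∈ B)} with hK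
  have hKf : K.Finite := by
    have e1 : K ⊆ (⋃ a ∈ A, (fun b => (a, b)) '' {b | P a b}) ∪
        (⋃ b ∈ B, (fun a => (a, b)) '' {a | P a b}) := by
      rintro ⟨a, b⟩ ⟨h4, h5 | h5⟩
      · left
        exact Set.mem_biUnion h5 ⟨b, h4, rfl⟩
      · right
        exact Set.mem_biUnion h5 ⟨a, h4, rfl⟩
    refine Set.Finite.subset (Set.Finite.union ?_ ?_) e1
    · exact hA.biUnion fun a _ => (hrow a).image _
    · exact hB.biUnion fun b _ => (hcol b).image _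
  have h4 : ∀ p ∈ K, ∃ k, ¬(agree k (r p.1) ξ ∧ agree k (r p.2) η) := by
    rintro p hp
    by_contra h5
    push Not at h5
    exact h1 p.1 p.2 hp.1 (eq_of_agree fun m => (h5 m).1) (eq_of_agree fun m => (h5 m).2)
  choose! k hk using h4
  obtain ⟨m', hm'⟩ : ∃ m', ∀ p ∈ K, k p ≤ m' := by
    refine ⟨hKf.toFinset.sup k, fun p hp => ?_⟩
    exact Finset.le_sup (f := k) (hKf.mem_toFinset.2 hp)
  obtain ⟨a, b, h5, h6, h7⟩ := h (max m m')
  have h8 : (a, b) ∈ K := by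
    refine ⟨h5, ?_⟩
    by_contra h9
    rw [not_or] at h9
    exact h3 a b h5 h9.1 h9.2 (h6.mono (le_max_left _ _)) (h7.mono (le_max_left _ _))
  exact hk _ h8 ⟨h6.mono ((hm' _ h8).trans (le_max_right _ _)),
    h7.mono ((hm' _ h8).trans (le_max_right _ _))⟩

end pairs

/-- the properties of the matrix of an operator -/
structure Mat {ι : Type} (r : ι → ℕ → Bool) (v : ι → ι → ℝ) : Prop where
  col : ∀ b, ∀ δ > 0, {a | δ ≤ |v a b|}.Finite
  row : ∀ a, ∀ δ > 0, {b | δ ≤ |v a b|}.Finite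
  bal : ∀ ε > 0, ∃ d : ℕ, ∀ (J : Type) [Fintype J] [Nonempty J] (a b : J → ι),
    IsComb (fun j => r (a j)) → Function.Injective b → IsBal d (fun j => r (b j)) →
    (∀ j, ε ≤ |v (a j) (b j)|) → (∀ i j, i ≠ j → |v (a i) (b j)| ≤ 1 / Fintype.card J) → False

section steps

variable {ι : Type} {r : ι → ℕ → Bool} (hr : Function.Injective r) {v : ι → ι → ℝ} (h : Mat r v)
  {ε : ℝ} (hε : 0 < ε) {P : ι → ι → Prop} (hP : ∀ a b, P a b → ε ≤ |v a b|)

include hr h hε hP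

lemma step_3a (ξ : ℕ → Bool) : {η | (PF r P ξ η).NeBot}.Countable := by
  classical
  by_contra hc
  obtain ⟨d, hd⟩ := h.bal ε hε
  obtain ⟨s, hs1, hs2, hs3⟩ := exists_bal d _ hc
  obtain ⟨m, hm⟩ := hs3.approx
  have hcard : Fintype.card s = 2 ^ d := by rw [Fintype.card_coe, hs2]
  have hne : Nonempty s := by
    rw [← Fintype.card_pos_iff, hcard]
    positivity
  set δ : ℝ := 1 / Fintype.card s with hδ
  have hδ0 : 0 < δ := by
    rw [hδ, hcard]
    positivity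
  have hlev : ∀ a : ι, r a ≠ ξ → ∃ l, agree l (r a) ξ ∧ r a l ≠ ξ l := fun a ha => exists_lev ha
  choose! lev hlev using hlev
  obtain ⟨p, hp1, hp2⟩ := sel (J := s) (Ω := ι × ι) (fun j => PF r P ξ j.1)
    (fun j => hs1 j.1 j.2)
    (fun j q => P q.1 q.2 ∧ r q.1 ≠ ξ ∧ agree m (r q.2) j.1)
    (fun p q => lev p.1 ≠ lev q.1 ∧ p.2 ≠ q.2 ∧ |v p.1 q.2| < δ) (by
      intro j
      have e1 : {a : ι | r a = ξ}.Finite := by
        refine Set.Subsingleton.finite ?_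
        intro a ha b hb
        exact hr (ha.trans hb.symm)
      filter_upwards [PF_P r (P := P) ξ j.1, PF_fst r (P := P) ξ j.1 e1,
        PF_agree r (P := P) ξ j.1 m] with q h1 h2 h3
      exact ⟨h1, h2, h3.2⟩) (by
      rintro i j p ⟨h1, h2, h3⟩
      have e1 : {a : ι | r a = ξ}.Finite := by
        refine Set.Subsingleton.finite ?_
        intro a ha b hb
        exact hr (ha.trans hb.symm)
      filter_upwards [PF_P r (P := P) ξ j.1, PF_fst r (P := P) ξ j.1 e1,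
        PF_agree r (P := P) ξ j.1 (lev p.1 + 1), PF_snd r (P := P) ξ j.1 (Set.finite_singleton p.2),
        PF_snd r (P := P) ξ j.1 (h.row p.1 δ hδ0), PF_fst r (P := P) ξ j.1 (h.col p.2 δ hδ0)]
        with q h4 h5 h6 h7 h8 h9
      have h8' : |v p.1 q.2| < δ := not_le.1 h8
      have h9' : |v q.1 p.2| < δ := not_le.1 h9
      have h7' : q.2 ≠ p.2 := h7
      have e2 : lev p.1 ≠ lev q.1 := by
        intro e
        have e3 := (hlev q.1 h5).2
        exact e3 (h6.1 _ (by rw [e]; exact Nat.lt_succ_self _))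
      exact ⟨⟨e2, h7'.symm, h8'⟩, e2.symm, h7', h9'⟩)
  refine hd s (fun j => (p j).1) (fun j => (p j).2) ?_ ?_ ?_ ?_ ?_
  · refine ⟨ξ, fun j => lev (p j).1, ?_, fun j => hlev _ (hp1 j).2.1⟩
    intro i j hij
    by_contra hne
    exact (hp2 i j hne).1 hij
  · intro i j hij
    by_contra hne
    exact (hp2 i j hne).2.1 hij
  · exact hm m le_rfl _ fun j => (hp1 j).2.2
  · intro j
    exact hP _ _ (hp1 j).1
  · intro i j hij
    exact (hp2 i j hij).2.2.le

lemma step_3b : {η | ¬{ξ | (PF r P ξ η).NeBot}.Countable}.Countable := by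
  classical
  by_contra hc
  obtain ⟨d, hd⟩ := h.bal ε hε
  set N := 2 ^ d with hN
  set D : (Fin N → ℕ) × Finset ℕ → Set (ℕ → Bool) := fun κ =>
    {η | Function.Injective κ.1 ∧ ∀ n, ∃ ξ, (PF r P ξ η).NeBot ∧
      agree (κ.1 n) ξ (fun k => decide (k ∈ κ.2)) ∧
      ξ (κ.1 n) ≠ decide (κ.1 n ∈ κ.2)} with hD
  have h1 : ∃ κ, ¬(D κ).Countable := by
    by_contra h2
    push Not at h2
    apply hc
    refine (Set.countable_iUnion h2).mono ?_
    intro η hη
    obtain ⟨ξ0, -, h3⟩ := exists_cond _ hη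
    have h4 : ∃ᶠ l in atTop, ∃ ξ, (PF r P ξ η).NeBot ∧ agree l ξ ξ0 ∧ ξ l ≠ ξ0 l := by
      rw [Filter.frequently_atTop]
      intro m
      obtain ⟨l, hl, hl'⟩ := h3 m
      refine ⟨l, hl, ?_⟩
      by_contra h5
      apply hl'
      have : {ξ | ξ ∈ {ξ | (PF r P ξ η).NeBot} ∧ agree l ξ ξ0 ∧ ξ l ≠ ξ0 l} = ∅ := by
        rw [Set.eq_empty_iff_forall_notMem]
        rintro ξ ⟨h6, h7⟩
        exact h5 ⟨ξ, h6, h7⟩
      rw [this]
      exact Set.countable_empty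
    obtain ⟨φ, hφ, hφ'⟩ := Filter.extraction_of_frequently_atTop h4
    rw [Set.mem_iUnion]
    set u : Finset ℕ := (Finset.range (φ N)).filter fun k => ξ0 k = true with hu
    have h5 : ∀ k < φ N, decide (k ∈ u) = ξ0 k := by
      intro k hk
      rw [hu]
      simp only [Finset.mem_filter, Finset.mem_range, hk, true_and]
      cases ξ0 k <;> simp
    refine ⟨(fun n => φ n, u), ?_, fun n => ?_⟩
    · intro i j hij
      exact Fin.ext (hφ.injective hij)
    · have h6 : φ n < φ N := hφ n.2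
      obtain ⟨ξ, h7, h8, h9⟩ := hφ' n
      refine ⟨ξ, h7, ?_, ?_⟩
      · intro k hk
        show ξ k = decide (k ∈ u)
        rw [h5 k (hk.trans h6)]
        exact h8 k hk
      · show ξ (φ n) ≠ decide (φ n ∈ u)
        rw [h5 _ h6]
        exact h9
  obtain ⟨κ, hκ⟩ := h1
  obtain ⟨s, hs1, hs2, hs3⟩ := exists_bal d _ hκ
  obtain ⟨m, hm⟩ := hs3.approx
  have hcard : Fintype.card s = 2 ^ d := by rw [Fintype.card_coe, hs2]
  have hne : Nonempty s := by
    rw [← Fintype.card_pos_iff, hcard]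
    positivity
  set δ : ℝ := 1 / Fintype.card s with hδ
  have hδ0 : 0 < δ := by
    rw [hδ, hcard]
    positivity
  have e : s ≃ Fin N := Fintype.equivFinOfCardEq hcard
  have hinj : Function.Injective κ.1 := (hs1 _ hne.some.2).1
  choose ξ hξ1 hξ2 hξ3 using fun j : s => (hs1 j.1 j.2).2 (e j)
  set m' := max m (Finset.univ.sup κ.1 + 1) with hm'
  have hlev : ∀ j, κ.1 j < m' := by
    intro j
    refine lt_of_lt_of_le ?_ (le_max_right _ _)
    exact Nat.lt_succ_of_le (Finset.le_sup (f := κ.1) (Finset.mem_univ j))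
  obtain ⟨p, hp1, hp2⟩ := sel (J := s) (Ω := ι × ι) (fun j => PF r P (ξ j) j.1)
    (fun j => hξ1 j)
    (fun j q => P q.1 q.2 ∧ agree m' (r q.1) (ξ j) ∧ agree m' (r q.2) j.1)
    (fun p q => p.2 ≠ q.2 ∧ |v p.1 q.2| < δ) (by
      intro j
      filter_upwards [PF_P r (P := P) (ξ j) j.1, PF_agree r (P := P) (ξ j) j.1 m'] with q h1 h3
      exact ⟨h1, h3⟩) (by
      rintro i j p ⟨h1, h2, h3⟩
      filter_upwards [PF_snd r (P := P) (ξ j) j.1 (Set.finite_singleton p.2),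
        PF_snd r (P := P) (ξ j) j.1 (h.row p.1 δ hδ0), PF_fst r (P := P) (ξ j) j.1 (h.col p.2 δ hδ0)]
        with q h7 h8 h9
      have h8' : |v p.1 q.2| < δ := not_le.1 h8
      have h9' : |v q.1 p.2| < δ := not_le.1 h9
      have h7' : q.2 ≠ p.2 := h7
      exact ⟨⟨h7'.symm, h8'⟩, h7', h9'⟩)
  refine hd s (fun j => (p j).1) (fun j => (p j).2) ?_ ?_ ?_ ?_ ?_
  · refine ⟨fun k => decide (k ∈ κ.2), fun j => κ.1 (e j), hinj.comp e.injective, fun j => ?_⟩
    have e1 := (hp1 j).2.1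
    have e2 := hlev (e j)
    refine ⟨(e1.mono e2.le).trans (hξ2 j), ?_⟩
    show r (p j).1 (κ.1 (e j)) ≠ decide (κ.1 (e j) ∈ κ.2)
    rw [e1 _ e2]
    exact hξ3 j
  · intro i j hij
    by_contra hne
    exact (hp2 i j hne).1 hij
  · exact hm m' (le_max_left _ _) _ fun j => (hp1 j).2.2
  · intro j
    exact hP _ _ (hp1 j).1
  · intro i j hij
    exact (hp2 i j hij).2.le

lemma fin_col (b : ι) : {a | P a b}.Finite :=
  (h.col b ε hε).subset fun a ha => hP a b ha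

lemma fin_row (a : ι) : {b | P a b}.Finite :=
  (h.row a ε hε).subset fun b hb => hP a b hb

lemma cl_section (ξ : ℕ → Bool) : {η | Cl r P ξ η}.Countable := by
  classical
  have h1 : {η | Cl r P ξ η} ⊆ {η | ∃ a b, P a b ∧ r a = ξ ∧ r b = η} ∪
      {η | (PF r P ξ η).NeBot} := by
    intro η hη
    exact Cl.good r (fin_col hr h hε hP) (fin_row hr h hε hP) hη
  refine (Set.Countable.union ?_ (step_3a hr h hε hP ξ)).mono h1
  by_cases h2 : ∃ a, r a = ξ
  · obtain ⟨a, ha⟩ := h2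
    refine (((fin_row hr h hε hP a).image r).subset ?_).countable
    rintro η ⟨a', b, h3, h4, h5⟩
    have : a' = a := hr (h4.trans ha.symm)
    subst this
    exact ⟨b, h3, h5⟩
  · refine Set.Countable.mono ?_ Set.countable_empty
    rintro η ⟨a', b, h3, h4, h5⟩
    exact h2 ⟨a', h4⟩

lemma cl_section' : {η | ¬{ξ | Cl r P ξ η}.Countable}.Countable := by
  classical
  refine (step_3b hr h hε hP).mono ?_
  intro η hη h1
  apply hη
  have h1' : {ξ | (PF r P ξ η).NeBot}.Countable := h1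
  have h2 : {ξ | Cl r P ξ η} ⊆ {ξ | ∃ a b, P a b ∧ r a = ξ ∧ r b = η} ∪
      {ξ | (PF r P ξ η).NeBot} := by
    intro ξ hξ
    exact Cl.good r (fin_col hr h hε hP) (fin_row hr h hε hP) hξ
  refine (Set.Countable.union ?_ h1').mono h2
  by_cases h2 : ∃ b, r b = η
  · obtain ⟨b, hb⟩ := h2
    refine (((fin_col hr h hε hP b).image r).subset ?_).countable
    rintro ξ ⟨a, b', h3, h4, h5⟩
    have : b' = b := hr (h5.trans hb.symm)
    subst this
    exact ⟨a, h3, h4⟩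
  · refine Set.Countable.mono ?_ Set.countable_empty
    rintro ξ ⟨a, b', h3, h4, h5⟩
    exact h2 ⟨b', h5⟩

end steps

end Pool.Agent.N305.TH
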