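import Pool.Agent.N305.TH.Norm

/-!
# Twisted sums from `0`-linear maps
-/

set_option autoImplicit false

open Filter Topology

namespace Pool.Agent.N305.TH

variable (H Y A : Type) [NormedAddCommGroup H] [NormedSpace ℝ H] [NormedAddCommGroup Y]
  [NormedSpace ℝ Y] [AddCommGroup A] [Module ℝ A]

/-- a homogeneous map `F : H → A` such that `∑ F x ∈ Y`, with norm at most `∑ ‖x‖`, whenever
`∑ x = 0`. -/
structure ZMap where
  i : Y →ₗ[ℝ] A
  inj : Function.Injective i
  F : H → A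
  smul : ∀ (c : ℝ) x, F (c • x) = c • F x
  z : ∀ L : List H, L.sum = 0 → ∃ y, i y = (L.map F).sum ∧ ‖y‖ ≤ (L.map norm).sum

variable {H Y A}

namespace ZMap

variable (Z : ZMap H Y A)

lemma F_zero : Z.F 0 = 0 := by
  have := Z.smul 0 0
  simpa using this

lemma F_neg (x : H) : Z.F (-x) = -Z.F x := by
  have := Z.smul (-1) x
  simpa using this

lemma z' (L : List H) : ∃ y, Z.i y = (L.map Z.F).sum - Z.F L.sum ∧
    ‖y‖ ≤ 2 * (L.map norm).sum := by
  obtain ⟨y, hy, hy'⟩ := Z.z ((-L.sum) :: L) (by simp)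
  refine ⟨y, ?_, hy'.trans ?_⟩
  · rw [hy, List.map_cons, List.sum_cons, F_neg]
    abel
  · rw [List.map_cons, List.sum_cons, norm_neg]
    have : ‖L.sum‖ ≤ (L.map norm).sum := by
      clear hy hy'
      induction L with
      | nil => simp
      | cons a L ih =>
        rw [List.map_cons, List.sum_cons, List.sum_cons]
        exact (norm_add_le _ _).trans (by linarith)
    linarith

/-- the twisted sum as a subspace of `H × A` -/
def sub : Submodule ℝ (H × A) where
  carrier := {p | ∃ y, Z.i y = p.2 - Z.F p.1}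
  zero_mem' := ⟨0, by simp [F_zero]⟩
  add_mem' := by
    rintro p p' ⟨y, hy⟩ ⟨y', hy'⟩
    obtain ⟨w, hw, -⟩ := Z.z' [p.1, p'.1]
    refine ⟨y + y' + w, ?_⟩
    rw [map_add, map_add, hy, hy', hw]
    simp only [List.map_cons, List.map_nil, List.sum_cons, List.sum_nil, add_zero, Prod.fst_add,
      Prod.snd_add]
    abel
  smul_mem' := by
    rintro c p ⟨y, hy⟩
    refine ⟨c • y, ?_⟩
    rw [map_smul, hy, Prod.smul_fst, Prod.smul_snd, Z.smul, smul_sub]

/-- the `Y`-part -/
noncomputable def yv (p : Z.sub) : Y := Classical.choose p.2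

lemma yv_spec (p : Z.sub) : Z.i (Z.yv p) = p.1.2 - Z.F p.1.1 := Classical.choose_spec p.2

lemma yv_eq (p : Z.sub) (y : Y) (h : Z.i y = p.1.2 - Z.F p.1.1) : Z.yv p = y :=
  Z.inj (by rw [yv_spec, h])

lemma yv_smul (c : ℝ) (p : Z.sub) : Z.yv (c • p) = c • Z.yv p := by
  apply Z.yv_eq
  rw [map_smul, yv_spec]
  show c • (p.1.2 - Z.F p.1.1) = c • p.1.2 - Z.F (c • p.1.1)
  rw [Z.smul, smul_sub]

/-- the quasi-norm -/
noncomputable def Q (p : Z.sub) : ℝ := ‖Z.yv p‖ + ‖p.1.1‖

lemma Q_nonneg (p : Z.sub) : 0 ≤ Z.Q p := by unfold Q; positivity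

lemma Q_smul (c : ℝ) (p : Z.sub) : Z.Q (c • p) = |c| * Z.Q p := by
  unfold Q
  rw [yv_smul, norm_smul]
  show _ + ‖c • p.1.1‖ = _
  rw [norm_smul, Real.norm_eq_abs]
  ring

lemma Q_sum (L : List Z.sub) : Z.Q L.sum ≤ 3 * (L.map Z.Q).sum := by
  obtain ⟨w, hw, hw'⟩ := Z.z' (L.map fun p => p.1.1)
  have h1 : ∀ L : List Z.sub, (L.sum).1.1 = (L.map fun p => p.1.1).sum := by
    intro L
    induction L with
    | nil => simp
    | cons a L ih => rw [List.map_cons, List.sum_cons, List.sum_cons, ← ih]; rfl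
  have h2 : ∀ L : List Z.sub, (L.sum).1.2 = (L.map fun p => p.1.2).sum := by
    intro L
    induction L with
    | nil => simp
    | cons a L ih => rw [List.map_cons, List.sum_cons, List.sum_cons, ← ih]; rfl
  have h3 : ∀ L : List Z.sub, Z.i (L.map Z.yv).sum =
      (L.map fun p => p.1.2).sum - ((L.map fun p => p.1.1).map Z.F).sum := by
    intro L
    induction L with
    | nil => simp
    | cons a L ih =>
      simp only [List.map_cons, List.sum_cons, map_add, ih, yv_spec]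
      abel
  have h4 : Z.yv L.sum = (L.map Z.yv).sum + w := by
    apply Z.yv_eq
    rw [map_add, h3, hw, h1, h2]
    abel
  have h5 : ∀ L : List Z.sub, ‖(L.map Z.yv).sum‖ + 3 * ((L.map fun p => p.1.1).map norm).sum
      ≤ 3 * (L.map Z.Q).sum := by
    intro L
    induction L with
    | nil => simp
    | cons a L ih =>
      simp only [List.map_cons, List.sum_cons]
      have := norm_add_le (Z.yv a) (L.map Z.yv).sum
      unfold Q at ih ⊢
      have h0 := norm_nonneg (Z.yv a)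
      linarith
  have h6 : ∀ L : List Z.sub, ‖(L.map fun p => p.1.1).sum‖ ≤
      ((L.map fun p => p.1.1).map norm).sum := by
    intro L
    induction L with
    | nil => simp
    | cons a L ih =>
      simp only [List.map_cons, List.sum_cons]
      exact (norm_add_le _ _).trans (by linarith)
  have h7 := h5 L
  have h8 := h6 L
  have h9 := norm_add_le (L.map Z.yv).sum w
  show ‖Z.yv L.sum‖ + ‖(L.sum).1.1‖ ≤ 3 * (L.map Z.Q).sum
  rw [h4, h1]
  linarith

/-- the space -/
def Sp : Type := Z.sub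

instance : AddCommGroup Z.Sp := inferInstanceAs (AddCommGroup Z.sub)
instance : Module ℝ Z.Sp := inferInstanceAs (Module ℝ Z.sub)

/-- the norm -/
noncomputable def semi : Seminorm ℝ Z.Sp := infSemi (X := Z.sub) Z.Q Z.Q_nonneg Z.Q_smul

lemma semi_le (p : Z.Sp) : Z.semi p ≤ Z.Q p := infN_le Z.Q_nonneg p

lemma le_semi (p : Z.Sp) : Z.Q p ≤ 3 * Z.semi p := le_infN (by norm_num) Z.Q_sum p

noncomputable instance : NormedAddCommGroup Z.Sp :=
  AddGroupNorm.toNormedAddCommGroup
    { toFun := Z.semi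
      map_zero' := map_zero Z.semi
      add_le' := map_add_le_add Z.semi
      neg' := map_neg_eq_map Z.semi
      eq_zero_of_map_eq_zero' := by
        intro p hp
        have h1 := Z.le_semi p
        rw [hp, mul_zero] at h1
        have h2 : Z.Q p = 0 := le_antisymm h1 (Z.Q_nonneg p)
        have h3 := norm_nonneg (Z.yv p)
        have h4 := norm_nonneg p.1.1
        unfold Q at h2
        have h5 : p.1.1 = 0 := norm_eq_zero.1 (by linarith)
        have h6 : Z.yv p = 0 := norm_eq_zero.1 (by linarith)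
        have h7 := Z.yv_spec p
        rw [h5, h6, F_zero, map_zero, sub_zero] at h7
        apply Subtype.ext
        exact Prod.ext h5 h7.symm }

lemma norm_def (p : Z.Sp) : ‖p‖ = Z.semi p := rfl

noncomputable instance : NormedSpace ℝ Z.Sp where
  norm_smul_le c p := by
    rw [norm_def, norm_def, map_smul_eq_mul]

/-- the quotient map -/
noncomputable def q : Z.Sp →L[ℝ] H :=
  LinearMap.mkContinuous (σ := RingHom.id ℝ) (E := Z.Sp)
    { toFun := fun p => p.1.1
      map_add' := fun _ _ => rfl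
      map_smul' := fun _ _ => rfl } 3 (by
    intro p
    refine le_trans ?_ (Z.le_semi p)
    show ‖p.1.1‖ ≤ Z.Q p
    unfold Q
    have := norm_nonneg (Z.yv p)
    linarith)

/-- the second coordinate -/
def kap : Z.Sp →ₗ[ℝ] A where
  toFun p := p.1.2
  map_add' _ _ := rfl
  map_smul' _ _ := rfl

lemma ext' (z w : Z.Sp) (h1 : Z.q z = Z.q w) (h2 : Z.kap z = Z.kap w) : z = w :=
  Subtype.ext (Prod.ext h1 h2)

lemma exists_of (x : H) (y : Y) : ∃ z : Z.Sp, Z.q z = x ∧ Z.kap z = Z.F x + Z.i y ∧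
    ‖z‖ ≤ ‖y‖ + ‖x‖ := by
  have hm : (x, Z.F x + Z.i y) ∈ Z.sub := ⟨y, by simp⟩
  refine ⟨⟨_, hm⟩, rfl, rfl, ?_⟩
  refine (Z.semi_le _).trans ?_
  unfold Q
  rw [Z.yv_eq ⟨_, hm⟩ y (by simp)]

lemma repr (z : Z.Sp) : ∃ y : Y, Z.kap z = Z.F (Z.q z) + Z.i y ∧ ‖y‖ + ‖Z.q z‖ ≤ 3 * ‖z‖ ∧
    ‖z‖ ≤ ‖y‖ + ‖Z.q z‖ :=
  ⟨Z.yv z, by
    have h : Z.i (Z.yv z) = z.1.2 - Z.F z.1.1 := Z.yv_spec z
    show z.1.2 = Z.F z.1.1 + Z.i (Z.yv z)
    rw [h, add_sub_cancel], Z.le_semi z, Z.semi_le z⟩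

lemma repr_norm (z : Z.Sp) (y : Y) (h : Z.kap z = Z.F (Z.q z) + Z.i y) :
    ‖y‖ + ‖Z.q z‖ ≤ 3 * ‖z‖ ∧ ‖z‖ ≤ ‖y‖ + ‖Z.q z‖ := by
  obtain ⟨y', h1, h2⟩ := Z.repr z
  have : y' = y := Z.inj (add_left_cancel (h1.symm.trans h))
  rwa [this] at h2

variable [CompleteSpace H] [CompleteSpace Y]

instance : CompleteSpace Z.Sp := by
  refine Metric.complete_of_cauchySeq_tendsto fun u hu => ?_
  have hq : CauchySeq fun n => Z.q (u n) := hu.map Z.q.uniformContinuous
  obtain ⟨x, hx⟩ := cauchySeq_tendsto_of_complete hq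
  obtain ⟨z, hz1, hz2, -⟩ := Z.exists_of x 0
  have hw : ∀ n, ∃ w : Z.Sp, Z.q w = Z.q (u n) - x ∧ ‖w‖ ≤ ‖Z.q (u n) - x‖ := by
    intro n
    obtain ⟨w, h1, -, h3⟩ := Z.exists_of (Z.q (u n) - x) 0
    exact ⟨w, h1, by simpa using h3⟩
  choose w hw1 hw2 using hw
  have hw0 : Tendsto w atTop (𝓝 0) := by
    refine squeeze_zero_norm hw2 ?_
    have := (hx.sub_const x).norm
    simpa using this
  set d : ℕ → Z.Sp := fun n => u n - z - w n with hd
  have hd0 : ∀ n, Z.q (d n) = 0 := by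
    intro n
    rw [hd]
    simp only [map_sub, hz1, hw1]
    abel
  have hdc : CauchySeq d := by
    have h1 := (hu.add (cauchySeq_const (-z) : CauchySeq fun _ : ℕ => -z)).add
      hw0.neg.cauchySeq
    have h2 : d = (u + fun _ => -z) + fun n => -w n := by
      funext n
      show u n - z - w n = u n + -z + -w n
      rw [sub_eq_add_neg, sub_eq_add_neg]
    rw [h2]
    exact h1
  have hy : ∀ n, ∃ y : Y, Z.kap (d n) = Z.i y := by
    intro n
    obtain ⟨y, h1, -⟩ := Z.repr (d n)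
    refine ⟨y, ?_⟩
    rw [h1, hd0, F_zero, zero_add]
  choose y hy using hy
  have hyn : ∀ n m, ‖y n - y m‖ ≤ 3 * ‖d n - d m‖ := by
    intro n m
    have h0 : Z.q (d n - d m) = 0 := by rw [map_sub, hd0, hd0, sub_zero]
    have := (Z.repr_norm (d n - d m) (y n - y m) (by
      rw [h0, F_zero, zero_add, map_sub, hy, hy, map_sub])).1
    rw [h0, norm_zero, add_zero] at this
    exact this
  have hyc : CauchySeq y := by
    rw [Metric.cauchySeq_iff] at hdc ⊢
    intro ε hε
    obtain ⟨N, hN⟩ := hdc (ε / 3) (by positivity)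
    refine ⟨N, fun m hm n hn => ?_⟩
    have h1 := hN m hm n hn
    rw [dist_eq_norm] at h1 ⊢
    have := hyn m n
    linarith
  obtain ⟨y0, hy0⟩ := cauchySeq_tendsto_of_complete hyc
  obtain ⟨z', hz'1, hz'2, -⟩ := Z.exists_of 0 y0
  rw [F_zero, zero_add] at hz'2
  have hdl : Tendsto d atTop (𝓝 z') := by
    rw [tendsto_iff_norm_sub_tendsto_zero]
    have h1 : ∀ n, ‖d n - z'‖ ≤ ‖y n - y0‖ := by
      intro n
      have h0 : Z.q (d n - z') = 0 := by rw [map_sub, hd0, hz'1, sub_zero]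
      have := (Z.repr_norm (d n - z') (y n - y0) (by
        rw [h0, F_zero, zero_add, map_sub, hy, hz'2, map_sub])).2
      rwa [h0, norm_zero, add_zero] at this
    refine squeeze_zero (fun n => norm_nonneg _) h1 ?_
    have := (hy0.sub_const y0).norm
    simpa using this
  refine ⟨z + z' + 0, ?_⟩
  have h1 : u = fun n => z + d n + w n := by
    funext n
    show u n = z + (u n - z - w n) + w n
    abel
  rw [h1]
  exact (hdl.const_add z).add hw0

end ZMap

end Pool.Agent.N305.TH
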